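import Pool.Agent.W8.ST.Stm

/- copy of Pool/Agent/W661/ST/Abs.lean, written by helper661 -/

/-!
Project ST, part Abs: the algebraic core.
-/

set_option autoImplicit false

namespace Pool.Agent.W8.STC.W661Abs

open Pool.Agent.W8.ST LinearMap

section

variable {E : Type} [AddCommGroup E] [Module ℝ E]

theorem rank_split (S : Submodule ℝ E) (f : E →ₗ[ℝ] E) :
    Module.rank ℝ S = Module.rank ℝ (S.map f) +
      Module.rank ℝ (S ⊓ LinearMap.ker f : Submodule ℝ E) := by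
  have h := LinearMap.rank_range_add_rank_ker (f.domRestrict S)
  rw [LinearMap.range_domRestrict] at h
  rw [← h]
  congr 1
  have e := Submodule.equivMapOfInjective S.subtype S.subtype_injective
    (LinearMap.ker (f.domRestrict S))
  have h2 : (LinearMap.ker (f.domRestrict S)).map S.subtype = S ⊓ LinearMap.ker f := by
    ext x
    simp only [Submodule.mem_map, LinearMap.mem_ker, Submodule.mem_inf]
    constructor
    · rintro ⟨y, hy, rfl⟩
      exact ⟨y.2, hy⟩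
    · rintro ⟨h3, h4⟩
      exact ⟨⟨x, h3⟩, h4, rfl⟩
  rw [← h2]
  exact e.rank_eq

/-- rank comparison by a map which is injective on a submodule -/
theorem rank_le_of (S S' : Submodule ℝ E) (f : E →ₗ[ℝ] E) (h : ∀ v ∈ S, f v ∈ S')
    (hi : ∀ v ∈ S, f v = 0 → v = 0) : Module.rank ℝ S ≤ Module.rank ℝ S' := by
  refine LinearMap.rank_le_of_injective (f.restrict h) ?_
  rw [← LinearMap.ker_eq_bot, LinearMap.ker_eq_bot']
  intro v hv
  apply Subtype.ext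
  exact hi v v.2 (congrArg Subtype.val hv)

theorem card_half (x y : Cardinal) (h : x + x = y + y) : x = y := by
  rcases lt_or_ge x Cardinal.aleph0 with hx | hx
  · have h1 : y < Cardinal.aleph0 := by
      by_contra hy
      have hy' : Cardinal.aleph0 ≤ y := not_lt.1 hy
      have h2 : x + x < Cardinal.aleph0 := Cardinal.add_lt_aleph0 hx hx
      rw [h, Cardinal.add_eq_self hy'] at h2
      exact hy h2
    obtain ⟨n, rfl⟩ := Cardinal.lt_aleph0.1 hx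
    obtain ⟨m, rfl⟩ := Cardinal.lt_aleph0.1 h1
    have h3 : n + n = m + m := by exact_mod_cast h
    have h4 : n = m := by omega
    rw [h4]
  · have h1 : Cardinal.aleph0 ≤ y := by
      by_contra hy
      have hy' : y < Cardinal.aleph0 := not_le.1 hy
      have h2 : y + y < Cardinal.aleph0 := Cardinal.add_lt_aleph0 hy' hy'
      rw [← h, Cardinal.add_eq_self hx] at h2
      exact absurd h2 (not_lt.2 hx)
    rw [Cardinal.add_eq_self hx, Cardinal.add_eq_self h1] at h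
    exact h

/-- the fixed space -/
def Pp (I : E →ₗ[ℝ] E) : Submodule ℝ E := LinearMap.eqLocus I LinearMap.id

theorem mem_Pp (I : E →ₗ[ℝ] E) (v : E) : v ∈ Pp I ↔ I v = v := Iff.rfl

/-- the negative space -/
def Nn (I : E →ₗ[ℝ] E) : Submodule ℝ E := LinearMap.eqLocus I (-LinearMap.id)

theorem mem_Nn (I : E →ₗ[ℝ] E) (v : E) : v ∈ Nn I ↔ I v = -v := Iff.rfl

theorem half_add (v w : E) : (1 / 2 : ℝ) • (v + w) + (1 / 2 : ℝ) • (v - w) = v := by
  rw [← smul_add, add_add_sub_cancel, ← two_smul ℝ v, smul_smul]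
  norm_num

/-- an anticommuting operator: the rank of its image is twice the rank of the image of the
fixed part -/
theorem rank_anti (X : Submodule ℝ E) (I T : E →ₗ[ℝ] E) (hII : ∀ v, I (I v) = v)
    (hXI : ∀ v ∈ X, I v ∈ X) (hXT : ∀ v ∈ X, T v ∈ X) (hIT : ∀ v, I (T v) = -T (I v))
    (hTT : ∀ v, T (T v) = 0 → T v = 0) :
    Module.rank ℝ (X.map T) =
      Module.rank ℝ ((X ⊓ Pp I).map T) + Module.rank ℝ ((X ⊓ Pp I).map T) := by
  have h1 : X.map T = (X ⊓ Pp I).map T ⊔ (X ⊓ Nn I).map T := by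
    apply le_antisymm
    · rintro _ ⟨v, hv, rfl⟩
      have hv1 : (1 / 2 : ℝ) • (v + I v) ∈ X ⊓ Pp I := by
        refine ⟨X.smul_mem _ (X.add_mem hv (hXI v hv)), ?_⟩
        change I ((1 / 2 : ℝ) • (v + I v)) = (1 / 2 : ℝ) • (v + I v)
        rw [map_smul, map_add, hII, add_comm]
      have hv2 : (1 / 2 : ℝ) • (v - I v) ∈ X ⊓ Nn I := by
        refine ⟨X.smul_mem _ (X.sub_mem hv (hXI v hv)), ?_⟩
        change I ((1 / 2 : ℝ) • (v - I v)) = -((1 / 2 : ℝ) • (v - I v))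
        rw [map_smul, map_sub, hII, ← smul_neg, neg_sub]
      have h2 : T v = T ((1 / 2 : ℝ) • (v + I v)) + T ((1 / 2 : ℝ) • (v - I v)) := by
        rw [← map_add, half_add]
      rw [h2]
      exact Submodule.add_mem_sup ⟨_, hv1, rfl⟩ ⟨_, hv2, rfl⟩
    · exact sup_le (Submodule.map_mono inf_le_left) (Submodule.map_mono inf_le_left)
  have hA : ∀ a ∈ (X ⊓ Pp I).map T, a ∈ X ⊓ Nn I := by
    rintro _ ⟨v, hv, rfl⟩
    refine ⟨hXT v hv.1, ?_⟩
    change I (T v) = - T v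
    rw [hIT, (mem_Pp I v).1 hv.2]
  have hB : ∀ a ∈ (X ⊓ Nn I).map T, a ∈ X ⊓ Pp I := by
    rintro _ ⟨v, hv, rfl⟩
    refine ⟨hXT v hv.1, ?_⟩
    change I (T v) = T v
    rw [hIT, (mem_Nn I v).1 hv.2, map_neg, neg_neg]
  have h2 : (X ⊓ Pp I).map T ⊓ (X ⊓ Nn I).map T = ⊥ := by
    rw [eq_bot_iff]
    rintro a ⟨ha, hb⟩
    have h3 := (mem_Nn I a).1 (hA a ha).2
    have h4 := (mem_Pp I a).1 (hB a hb).2
    rw [h4] at h3
    have h5 : (2 : ℝ) • a = 0 := by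
      rw [two_smul]
      nth_rewrite 1 [h3]
      rw [neg_add_cancel]
    rcases smul_eq_zero.1 h5 with h6 | h6
    · norm_num at h6
    · exact h6
  have h3 := Submodule.rank_sup_add_rank_inf_eq ((X ⊓ Pp I).map T) ((X ⊓ Nn I).map T)
  rw [← h1, h2, rank_bot, add_zero] at h3
  rw [h3]
  congr 1
  apply le_antisymm
  · refine rank_le_of _ _ T ?_ ?_
    · intro a ha
      exact ⟨a, hB a ha, rfl⟩
    · rintro _ ⟨v, hv, rfl⟩ h
      exact hTT v h
  · refine rank_le_of _ _ T ?_ ?_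
    · intro a ha
      exact ⟨a, hA a ha, rfl⟩
    · rintro _ ⟨v, hv, rfl⟩ h
      exact hTT v h

/-- rank of images under a correspondence of kernels -/
theorem rank_corr (A B : Submodule ℝ E) (e : A ≃ₗ[ℝ] B) (f g : E →ₗ[ℝ] E)
    (h : ∀ a : A, f (a : E) = 0 ↔ g (e a : E) = 0) :
    Module.rank ℝ (A.map f) = Module.rank ℝ (B.map g) := by
  rw [← LinearMap.range_domRestrict, ← LinearMap.range_domRestrict]
  have h1 := (LinearMap.quotKerEquivRange (f.domRestrict A)).rank_eq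
  have h2 := (LinearMap.quotKerEquivRange (g.domRestrict B)).rank_eq
  rw [← h1, ← h2]
  refine (Submodule.Quotient.equiv _ _ e ?_).rank_eq
  ext b
  simp only [Submodule.mem_map, LinearMap.mem_ker]
  constructor
  · rintro ⟨a, ha, rfl⟩
    exact (h a).1 ha
  · intro hb
    refine ⟨e.symm b, ?_, e.apply_symm_apply b⟩
    refine (h _).2 ?_
    rw [e.apply_symm_apply]
    exact hb

/-- restriction of a linear equivalence of submodules -/
theorem exists_equiv (Kb Ka P Q : Submodule ℝ E) (J : Kb ≃ₗ[ℝ] Ka)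
    (h : ∀ v : Kb, (v : E) ∈ P ↔ (J v : E) ∈ Q) :
    ∃ e : (Kb ⊓ P : Submodule ℝ E) ≃ₗ[ℝ] (Ka ⊓ Q : Submodule ℝ E),
      ∀ v, (e v : E) = J ⟨v, v.2.1⟩ := by
  let F : (Kb ⊓ P : Submodule ℝ E) →ₗ[ℝ] E :=
    Ka.subtype ∘ₗ J.toLinearMap ∘ₗ Submodule.inclusion inf_le_left
  have hF : ∀ v, F v = J ⟨v, v.2.1⟩ := fun v => rfl
  let G : (Kb ⊓ P : Submodule ℝ E) →ₗ[ℝ] (Ka ⊓ Q : Submodule ℝ E) :=
    F.codRestrict _ (fun v => ⟨(J ⟨v, v.2.1⟩).2, (h _).1 v.2.2⟩)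
  have hG : ∀ v, (G v : E) = J ⟨v, v.2.1⟩ := fun v => rfl
  have hb : Function.Bijective G := by
    constructor
    · intro v w hvw
      have h1 : (G v : E) = G w := congrArg Subtype.val hvw
      rw [hG, hG] at h1
      have h2 := J.injective (Subtype.ext h1)
      have h3 : (v : E) = w := congrArg (fun z : Kb => (z : E)) h2
      exact Subtype.ext h3
    · intro w
      set u := J.symm ⟨w, w.2.1⟩ with hu
      have h1 : J u = ⟨w, w.2.1⟩ := J.apply_symm_apply _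
      have h2 : (u : E) ∈ P := (h u).2 (by rw [h1]; exact w.2.2)
      refine ⟨⟨u, u.2, h2⟩, ?_⟩
      apply Subtype.ext
      rw [hG]
      change (J u : E) = w
      rw [h1]
  exact ⟨LinearEquiv.ofBijective G hb, fun v => rfl⟩

theorem abs_core (D : Fin 3 → E →ₗ[ℝ] E) (I1 I2 : E →ₗ[ℝ] E)
    (hD : ∀ i j v, D i (D j v) = D j (D i v)) (hDD : ∀ i v, D i (D i v) = 0 → D i v = 0)
    (hI1 : ∀ v, I1 (I1 v) = v) (hI2 : ∀ v, I2 (I2 v) = v)
    (h10 : ∀ v, I1 (D 0 v) = -D 0 (I1 v)) (h11 : ∀ v, I1 (D 1 v) = D 1 (I1 v))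
    (h12 : ∀ v, I1 (D 2 v) = -D 2 (I1 v))
    (h20 : ∀ v, I2 (D 0 v) = D 0 (I2 v)) (h21 : ∀ v, I2 (D 1 v) = -D 1 (I2 v))
    (h22 : ∀ v, I2 (D 2 v) = -D 2 (I2 v)) (Kb Ka : Submodule ℝ E)
    (memKb : ∀ v, v ∈ Kb ↔ D 0 v = 0 ∧ D 2 v = 0)
    (memKa : ∀ v, v ∈ Ka ↔ D 1 v = 0 ∧ D 2 v = 0) (J : Kb ≃ₗ[ℝ] Ka)
    (hJk : ∀ v : Kb, D 1 (v : E) = 0 ↔ D 0 (J v : E) = 0)
    (hJ1 : ∀ v w : Kb, (w : E) = I1 v → (J w : E) = I2 (J v))
    (hJ2 : ∀ v w : Kb, (w : E) = I2 v → (J w : E) = I1 (J v)) :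
    Module.rank ℝ (Pp I1) = Module.rank ℝ (Pp I2) := by
  set W : Submodule ℝ E := LinearMap.ker (D 2) ⊓ LinearMap.ker (D 0 ∘ₗ D 1) with hW
  have memW : ∀ v, v ∈ W ↔ D 2 v = 0 ∧ D 0 (D 1 v) = 0 := fun v => Iff.rfl
  -- steps 1 and 2
  have step12 : Module.rank ℝ (W ⊓ Pp I1 : Submodule ℝ E) =
      Module.rank ℝ (W ⊓ Pp I2 : Submodule ℝ E) →
      Module.rank ℝ (Pp I1) = Module.rank ℝ (Pp I2) := by
    intro hWW
    have a1 := rank_anti ⊤ I1 (D 2) hI1 (fun _ _ => trivial) (fun _ _ => trivial) h12 (hDD 2)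
    have a2 := rank_anti ⊤ I2 (D 2) hI2 (fun _ _ => trivial) (fun _ _ => trivial) h22 (hDD 2)
    rw [a1] at a2
    have a3 := card_half _ _ a2
    rw [top_inf_eq, top_inf_eq] at a3
    have hT1 : ∀ v, I1 ((D 0 ∘ₗ D 1) v) = -(D 0 ∘ₗ D 1) (I1 v) := by
      intro v
      change I1 (D 0 (D 1 v)) = - D 0 (D 1 (I1 v))
      rw [h10, h11]
    have hT2 : ∀ v, I2 ((D 0 ∘ₗ D 1) v) = -(D 0 ∘ₗ D 1) (I2 v) := by
      intro v
      change I2 (D 0 (D 1 v)) = - D 0 (D 1 (I2 v))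
      rw [h20, h21, map_neg]
    have hTT : ∀ v, (D 0 ∘ₗ D 1) ((D 0 ∘ₗ D 1) v) = 0 → (D 0 ∘ₗ D 1) v = 0 := by
      intro v hv
      change D 0 (D 1 (D 0 (D 1 v))) = 0 at hv
      change D 0 (D 1 v) = 0
      rw [hD 1 0] at hv
      have e1 := hDD 0 _ hv
      rw [hD 0 1] at e1
      rw [hD 0 1] at e1
      have e2 := hDD 1 _ e1
      rw [hD 0 1]
      exact e2
    have hK1 : ∀ v ∈ LinearMap.ker (D 2), I1 v ∈ LinearMap.ker (D 2) := by
      intro v hv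
      rw [LinearMap.mem_ker] at hv ⊢
      have e := h12 v
      rw [hv, map_zero] at e
      exact neg_eq_zero.1 e.symm
    have hK2 : ∀ v ∈ LinearMap.ker (D 2), I2 v ∈ LinearMap.ker (D 2) := by
      intro v hv
      rw [LinearMap.mem_ker] at hv ⊢
      have e := h22 v
      rw [hv, map_zero] at e
      exact neg_eq_zero.1 e.symm
    have hKT : ∀ v ∈ LinearMap.ker (D 2), (D 0 ∘ₗ D 1) v ∈ LinearMap.ker (D 2) := by
      intro v hv
      rw [LinearMap.mem_ker] at hv ⊢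
      change D 2 (D 0 (D 1 v)) = 0
      rw [hD 2 0, hD 2 1, hv, map_zero, map_zero]
    have b1 := rank_anti _ I1 (D 0 ∘ₗ D 1) hI1 hK1 hKT hT1 hTT
    have b2 := rank_anti _ I2 (D 0 ∘ₗ D 1) hI2 hK2 hKT hT2 hTT
    rw [b1] at b2
    have b3 := card_half _ _ b2
    have c1 : ∀ I : E →ₗ[ℝ] E, Module.rank ℝ (Pp I) = Module.rank ℝ ((Pp I).map (D 2)) +
        (Module.rank ℝ ((LinearMap.ker (D 2) ⊓ Pp I).map (D 0 ∘ₗ D 1)) +
          Module.rank ℝ (W ⊓ Pp I : Submodule ℝ E)) := by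
      intro I
      have e1 : Pp I ⊓ LinearMap.ker (D 2) = LinearMap.ker (D 2) ⊓ Pp I := inf_comm _ _
      have e2 : LinearMap.ker (D 2) ⊓ Pp I ⊓ LinearMap.ker (D 0 ∘ₗ D 1) = W ⊓ Pp I := by
        rw [hW, inf_right_comm]
      rw [rank_split (Pp I) (D 2), e1, rank_split (LinearMap.ker (D 2) ⊓ Pp I) (D 0 ∘ₗ D 1), e2]
    rw [c1 I1, c1 I2, a3, b3, hWW]
  -- step 3
  have step3 : ∀ I : E →ₗ[ℝ] E, (∀ v, I (D 0 (D 0 v)) = D 0 (D 0 (I v))) →
      Module.rank ℝ (W ⊓ Pp I : Submodule ℝ E) = Module.rank ℝ ((Ka ⊓ Pp I).map (D 0)) +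
        (Module.rank ℝ ((Kb ⊓ Pp I).map (D 1)) +
          Module.rank ℝ (Kb ⊓ Pp I ⊓ LinearMap.ker (D 1) : Submodule ℝ E)) := by
    intro I hI
    have e1 : W ⊓ Pp I ⊓ LinearMap.ker (D 0) = Kb ⊓ Pp I := by
      ext v
      simp only [Submodule.mem_inf, memW, memKb, LinearMap.mem_ker]
      constructor
      · rintro ⟨⟨⟨ha, hb⟩, hc⟩, hd⟩
        exact ⟨⟨hd, ha⟩, hc⟩
      · rintro ⟨⟨ha, hb⟩, hc⟩
        refine ⟨⟨⟨hb, ?_⟩, hc⟩, ha⟩
        rw [hD 0 1, ha, map_zero]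
    have e2 : Module.rank ℝ ((W ⊓ Pp I).map (D 0)) = Module.rank ℝ ((Ka ⊓ Pp I).map (D 0)) := by
      apply le_antisymm
      · refine rank_le_of _ _ (D 0 ∘ₗ D 0) ?_ ?_
        · rintro _ ⟨v, ⟨hv1, hv2⟩, rfl⟩
          rw [SetLike.mem_coe, memW] at hv1
          refine ⟨D 0 (D 0 v), ⟨?_, ?_⟩, rfl⟩
          · rw [SetLike.mem_coe, memKa]
            constructor
            · rw [hD 1 0, hD 1 0, hv1.2, map_zero]
            · rw [hD 2 0, hD 2 0, hv1.1, map_zero, map_zero]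
          · change I _ = _
            rw [hI, (mem_Pp I v).1 hv2]
            rfl
        · rintro _ ⟨v, hv, rfl⟩ h
          change D 0 (D 0 (D 0 v)) = 0 at h
          exact hDD 0 _ (hDD 0 _ h)
      · refine Submodule.rank_mono (Submodule.map_mono ?_)
        rintro v ⟨hv1, hv2⟩
        refine ⟨?_, hv2⟩
        rw [SetLike.mem_coe, memKa] at hv1
        rw [SetLike.mem_coe, memW]
        exact ⟨hv1.2, by rw [hv1.1, map_zero]⟩
    rw [rank_split (W ⊓ Pp I) (D 0), e1, e2, rank_split (Kb ⊓ Pp I) (D 1)]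
  -- step 4
  have inv1 : ∀ v ∈ Kb, I1 v ∈ Kb := by
    intro v hv
    rw [memKb] at hv ⊢
    have e := h10 v
    have e' := h12 v
    rw [hv.1, map_zero] at e
    rw [hv.2, map_zero] at e'
    exact ⟨neg_eq_zero.1 e.symm, neg_eq_zero.1 e'.symm⟩
  have inv2 : ∀ v ∈ Kb, I2 v ∈ Kb := by
    intro v hv
    rw [memKb] at hv ⊢
    have e := h20 v
    have e' := h22 v
    rw [hv.1, map_zero] at e
    rw [hv.2, map_zero] at e'
    exact ⟨e.symm, neg_eq_zero.1 e'.symm⟩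
  have k1 : ∀ v : Kb, (v : E) ∈ Pp I1 ↔ (J v : E) ∈ Pp I2 := by
    intro v
    rw [mem_Pp, mem_Pp]
    constructor
    · intro h
      exact (hJ1 v v h.symm).symm
    · intro h
      have e := hJ1 v ⟨I1 v, inv1 v v.2⟩ rfl
      rw [h] at e
      have e2 := J.injective (Subtype.ext e)
      exact congrArg Subtype.val e2
  have k2 : ∀ v : Kb, (v : E) ∈ Pp I2 ↔ (J v : E) ∈ Pp I1 := by
    intro v
    rw [mem_Pp, mem_Pp]
    constructor
    · intro h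
      exact (hJ2 v v h.symm).symm
    · intro h
      have e := hJ2 v ⟨I2 v, inv2 v v.2⟩ rfl
      rw [h] at e
      have e2 := J.injective (Subtype.ext e)
      exact congrArg Subtype.val e2
  obtain ⟨e1, he1⟩ := exists_equiv Kb Ka (Pp I1) (Pp I2) J k1
  obtain ⟨e2, he2⟩ := exists_equiv Kb Ka (Pp I2) (Pp I1) J k2
  obtain ⟨e3, -⟩ := exists_equiv Kb Ka (Pp I1 ⊓ LinearMap.ker (D 1)) (Pp I2 ⊓ LinearMap.ker (D 0)) J
    (by
      intro v
      rw [Submodule.mem_inf, Submodule.mem_inf, k1 v, LinearMap.mem_ker, LinearMap.mem_ker, hJk v])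
  have r1 : Module.rank ℝ ((Kb ⊓ Pp I1).map (D 1)) = Module.rank ℝ ((Ka ⊓ Pp I2).map (D 0)) := by
    refine rank_corr _ _ e1 _ _ ?_
    intro a
    rw [he1]
    exact hJk ⟨a, a.2.1⟩
  have r2 : Module.rank ℝ ((Kb ⊓ Pp I2).map (D 1)) = Module.rank ℝ ((Ka ⊓ Pp I1).map (D 0)) := by
    refine rank_corr _ _ e2 _ _ ?_
    intro a
    rw [he2]
    exact hJk ⟨a, a.2.1⟩
  have r3 : Module.rank ℝ (Kb ⊓ Pp I1 ⊓ LinearMap.ker (D 1) : Submodule ℝ E) =
      Module.rank ℝ (Kb ⊓ Pp I2 ⊓ LinearMap.ker (D 1) : Submodule ℝ E) := by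
    have h1 := e3.rank_eq
    have h2 : Kb ⊓ (Pp I1 ⊓ LinearMap.ker (D 1)) = Kb ⊓ Pp I1 ⊓ LinearMap.ker (D 1) :=
      (inf_assoc _ _ _).symm
    have h3 : Ka ⊓ (Pp I2 ⊓ LinearMap.ker (D 0)) = Kb ⊓ Pp I2 ⊓ LinearMap.ker (D 1) := by
      ext v
      simp only [Submodule.mem_inf, memKa, memKb, LinearMap.mem_ker]
      tauto
    rw [h2, h3] at h1
    exact h1
  apply step12
  rw [step3 I1 (fun v => by rw [h10, h10, map_neg, neg_neg]),
    step3 I2 (fun v => by rw [h20, h20]), r1, r2, r3]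
  rw [← add_assoc, ← add_assoc]
  congr 1
  exact add_comm _ _

end

theorem Abs_proof : Abs := by
  intro E _ _ D I1 I2 hD hDD hI1 hI2 h10 h11 h12 h20 h21 h22 J hJk hJ1 hJ2
  exact abs_core D I1 I2 hD hDD hI1 hI2 h10 h11 h12 h20 h21 h22 _ _ (fun _ => Iff.rfl)
    (fun _ => Iff.rfl) J hJk hJ1 hJ2

end Pool.Agent.W8.STC.W661Abs
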