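import Pool.Agent.W8.ST.Stm

/- copy of Pool/Agent/W506/ST/Ene.lean, written by helper506 -/

/-!
# The energy identity for periodic Neumann solutions (project ST, part Ene)
-/

set_option autoImplicit false

open scoped ContDiff
open MeasureTheory

namespace Pool.Agent.W8.STC.W506Ene

open Pool.Agent.W8.ST

noncomputable section

lemma swap2 (F : ℝ → ℝ → ℝ) (hF : Continuous F.uncurry) (a b c d : ℝ) :
    ∫ x in a..b, ∫ y in c..d, F x y = ∫ y in c..d, ∫ x in a..b, F x y := by
  apply MeasureTheory.intervalIntegral_intervalIntegral_swap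
  apply (hF.continuousOn.integrableOn_compact (isCompact_uIcc.prod isCompact_uIcc)).mono_set
  exact Set.prod_mono Set.uIoc_subset_uIcc Set.uIoc_subset_uIcc

lemma cvec : Continuous (fun p : ℝ × ℝ × ℝ × ℝ => (![p.1, p.2.1, p.2.2.1, p.2.2.2] : V 4)) := by
  apply continuous_pi
  intro i
  fin_cases i
  · exact continuous_fst
  · exact continuous_fst.comp continuous_snd
  · exact continuous_fst.comp (continuous_snd.comp continuous_snd)
  · exact continuous_snd.comp (continuous_snd.comp continuous_snd)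

lemma c0 {X : Type} [TopologicalSpace X] {G : V 4 → ℝ} (hG : Continuous G) (t a b c : X → ℝ)
    (ht : Continuous t) (ha : Continuous a) (hb : Continuous b) (hc : Continuous c) :
    Continuous (fun x => G ![t x, a x, b x, c x]) :=
  hG.comp (cvec.comp (ht.prodMk (ha.prodMk (hb.prodMk hc))))

lemma c1 {X : Type} [TopologicalSpace X] {G : V 4 → ℝ} (hG : Continuous G) (t a b : X → ℝ)
    (ht : Continuous t) (ha : Continuous a) (hb : Continuous b) (P Q : ℝ) :
    Continuous (fun x => ∫ c in P..Q, G ![t x, a x, b x, c]) := by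
  apply intervalIntegral.continuous_parametric_intervalIntegral_of_continuous'
    (f := fun x c => G ![t x, a x, b x, c])
  exact c0 hG (fun z : X × ℝ => t z.1) (fun z => a z.1) (fun z => b z.1) (fun z => z.2)
    (ht.comp continuous_fst) (ha.comp continuous_fst) (hb.comp continuous_fst) continuous_snd

lemma c2 {X : Type} [TopologicalSpace X] {G : V 4 → ℝ} (hG : Continuous G) (t a : X → ℝ)
    (ht : Continuous t) (ha : Continuous a) (P Q P' Q' : ℝ) :
    Continuous (fun x => ∫ b in P..Q, ∫ c in P'..Q', G ![t x, a x, b, c]) := by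
  apply intervalIntegral.continuous_parametric_intervalIntegral_of_continuous'
    (f := fun x b => ∫ c in P'..Q', G ![t x, a x, b, c])
  exact c1 hG (fun z : X × ℝ => t z.1) (fun z => a z.1) (fun z => z.2)
    (ht.comp continuous_fst) (ha.comp continuous_fst) continuous_snd _ _

lemma c3 {G : V 4 → ℝ} (hG : Continuous G) (P Q P' Q' P'' Q'' : ℝ) :
    Continuous (fun t : ℝ => ∫ a in P..Q, ∫ b in P'..Q', ∫ c in P''..Q'', G ![t, a, b, c]) := by
  apply intervalIntegral.continuous_parametric_intervalIntegral_of_continuous'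
    (f := fun t a => ∫ b in P'..Q', ∫ c in P''..Q'', G ![t, a, b, c])
  exact c2 hG (fun z : ℝ × ℝ => z.1) (fun z => z.2) continuous_fst continuous_snd _ _ _ _

lemma box_add {F G : V 4 → ℝ} (hF : Continuous F) (hG : Continuous G) :
    box (fun x => F x + G x) = box F + box G := by
  have h1 : ∀ t a b : ℝ, ∫ c in (0 : ℝ)..(2 * Real.pi), (F ![t, a, b, c] + G ![t, a, b, c]) =
      (∫ c in (0 : ℝ)..(2 * Real.pi), F ![t, a, b, c]) +
      ∫ c in (0 : ℝ)..(2 * Real.pi), G ![t, a, b, c] := by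
    intro t a b
    exact intervalIntegral.integral_add
      ((c0 hF (fun _ => t) (fun _ => a) (fun _ => b) (fun c => c) continuous_const
        continuous_const continuous_const continuous_id).intervalIntegrable _ _)
      ((c0 hG (fun _ => t) (fun _ => a) (fun _ => b) (fun c => c) continuous_const
        continuous_const continuous_const continuous_id).intervalIntegrable _ _)
  have h2 : ∀ t a : ℝ, ∫ b in (0 : ℝ)..(2 * Real.pi),
      ((∫ c in (0 : ℝ)..(2 * Real.pi), F ![t, a, b, c]) +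
      ∫ c in (0 : ℝ)..(2 * Real.pi), G ![t, a, b, c]) =
      (∫ b in (0 : ℝ)..(2 * Real.pi), ∫ c in (0 : ℝ)..(2 * Real.pi), F ![t, a, b, c]) +
      ∫ b in (0 : ℝ)..(2 * Real.pi), ∫ c in (0 : ℝ)..(2 * Real.pi), G ![t, a, b, c] := by
    intro t a
    exact intervalIntegral.integral_add
      ((c1 hF (fun _ => t) (fun _ => a) (fun b => b) continuous_const
        continuous_const continuous_id _ _).intervalIntegrable _ _)
      ((c1 hG (fun _ => t) (fun _ => a) (fun b => b) continuous_const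
        continuous_const continuous_id _ _).intervalIntegrable _ _)
  have h3 : ∀ t : ℝ, ∫ a in (0 : ℝ)..(2 * Real.pi),
      ((∫ b in (0 : ℝ)..(2 * Real.pi), ∫ c in (0 : ℝ)..(2 * Real.pi), F ![t, a, b, c]) +
      ∫ b in (0 : ℝ)..(2 * Real.pi), ∫ c in (0 : ℝ)..(2 * Real.pi), G ![t, a, b, c]) =
      (∫ a in (0 : ℝ)..(2 * Real.pi), ∫ b in (0 : ℝ)..(2 * Real.pi),
        ∫ c in (0 : ℝ)..(2 * Real.pi), F ![t, a, b, c]) +
      ∫ a in (0 : ℝ)..(2 * Real.pi), ∫ b in (0 : ℝ)..(2 * Real.pi),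
        ∫ c in (0 : ℝ)..(2 * Real.pi), G ![t, a, b, c] := by
    intro t
    exact intervalIntegral.integral_add
      ((c2 hF (fun _ => t) (fun a => a) continuous_const continuous_id _ _ _ _).intervalIntegrable
        _ _)
      ((c2 hG (fun _ => t) (fun a => a) continuous_const continuous_id _ _ _ _).intervalIntegrable
        _ _)
  unfold box
  simp only [h1, h2, h3]
  exact intervalIntegral.integral_add ((c3 hF _ _ _ _ _ _).intervalIntegrable _ _)
    ((c3 hG _ _ _ _ _ _).intervalIntegrable _ _)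

lemma mem_strip (t a b c : ℝ) (ht : t ∈ Set.uIcc (-1 : ℝ) 1) : (![t, a, b, c] : V 4) ∈ strip 3 := by
  rw [Set.uIcc_of_le (by norm_num)] at ht
  show |t| ≤ 1
  exact abs_le.mpr ht

lemma box_congr {F G : V 4 → ℝ} (h : ∀ x ∈ strip 3, F x = G x) : box F = box G := by
  unfold box
  apply intervalIntegral.integral_congr
  intro t ht
  have h1 : ∀ a b c : ℝ, F ![t, a, b, c] = G ![t, a, b, c] := fun a b c =>
    h _ (mem_strip t a b c ht)
  simp only [h1]

lemma Z3 {G : V 4 → ℝ} (h : ∀ t ∈ Set.uIcc (-1 : ℝ) 1, ∀ a b : ℝ,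
    ∫ c in (0 : ℝ)..(2 * Real.pi), G ![t, a, b, c] = 0) : box G = 0 := by
  unfold box
  rw [intervalIntegral.integral_congr (g := fun _ => (0 : ℝ))]
  · simp
  · intro t ht
    simp only [h t ht, intervalIntegral.integral_zero]

lemma Z2 {G : V 4 → ℝ} (hG : Continuous G) (h : ∀ t ∈ Set.uIcc (-1 : ℝ) 1, ∀ a c : ℝ,
    ∫ b in (0 : ℝ)..(2 * Real.pi), G ![t, a, b, c] = 0) : box G = 0 := by
  unfold box
  rw [intervalIntegral.integral_congr (g := fun _ => (0 : ℝ))]
  · simp
  · intro t ht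
    have h1 : ∀ a : ℝ, ∫ b in (0 : ℝ)..(2 * Real.pi), ∫ c in (0 : ℝ)..(2 * Real.pi),
        G ![t, a, b, c] = 0 := by
      intro a
      rw [swap2 (fun b c => G ![t, a, b, c]) (c0 hG (fun _ : ℝ × ℝ => t) (fun _ => a)
        (fun z => z.1) (fun z => z.2) continuous_const continuous_const continuous_fst
        continuous_snd)]
      simp only [h t ht, intervalIntegral.integral_zero]
    simp only [h1, intervalIntegral.integral_zero]

lemma Z1 {G : V 4 → ℝ} (hG : Continuous G) (h : ∀ t ∈ Set.uIcc (-1 : ℝ) 1, ∀ b c : ℝ,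
    ∫ a in (0 : ℝ)..(2 * Real.pi), G ![t, a, b, c] = 0) : box G = 0 := by
  unfold box
  rw [intervalIntegral.integral_congr (g := fun _ => (0 : ℝ))]
  · simp
  · intro t ht
    simp only
    rw [swap2 (fun a b => ∫ c in (0 : ℝ)..(2 * Real.pi), G ![t, a, b, c])
      (c1 hG (fun _ : ℝ × ℝ => t) (fun z => z.1) (fun z => z.2) continuous_const continuous_fst
        continuous_snd 0 (2 * Real.pi))]
    have h1 : ∀ b : ℝ, ∫ a in (0 : ℝ)..(2 * Real.pi), ∫ c in (0 : ℝ)..(2 * Real.pi),
        G ![t, a, b, c] = 0 := by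
      intro b
      rw [swap2 (fun a c => G ![t, a, b, c]) (c0 hG (fun _ : ℝ × ℝ => t) (fun z => z.1)
        (fun _ => b) (fun z => z.2) continuous_const continuous_fst continuous_const
        continuous_snd)]
      simp only [h t ht, intervalIntegral.integral_zero]
    simp only [h1, intervalIntegral.integral_zero]

lemma Z0 {G : V 4 → ℝ} (hG : Continuous G) (h : ∀ a b c : ℝ,
    ∫ t in (-1 : ℝ)..1, G ![t, a, b, c] = 0) : box G = 0 := by
  unfold box
  rw [swap2 (fun t a => ∫ b in (0 : ℝ)..(2 * Real.pi), ∫ c in (0 : ℝ)..(2 * Real.pi),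
    G ![t, a, b, c]) (c2 hG (fun z : ℝ × ℝ => z.1) (fun z => z.2) continuous_fst
      continuous_snd 0 (2 * Real.pi) 0 (2 * Real.pi))]
  have h2 : ∀ a : ℝ, ∫ t in (-1 : ℝ)..1, ∫ b in (0 : ℝ)..(2 * Real.pi),
      ∫ c in (0 : ℝ)..(2 * Real.pi), G ![t, a, b, c] = 0 := by
    intro a
    rw [swap2 (fun t b => ∫ c in (0 : ℝ)..(2 * Real.pi), G ![t, a, b, c])
      (c1 hG (fun z : ℝ × ℝ => z.1) (fun _ => a) (fun z => z.2) continuous_fst continuous_const
        continuous_snd 0 (2 * Real.pi))]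
    have h1 : ∀ b : ℝ, ∫ t in (-1 : ℝ)..1, ∫ c in (0 : ℝ)..(2 * Real.pi),
        G ![t, a, b, c] = 0 := by
      intro b
      rw [swap2 (fun t c => G ![t, a, b, c]) (c0 hG (fun z : ℝ × ℝ => z.1) (fun _ => a)
        (fun _ => b) (fun z => z.2) continuous_fst continuous_const continuous_const
        continuous_snd)]
      simp only [h, intervalIntegral.integral_zero]
    simp only [h1, intervalIntegral.integral_zero]
  simp only [h2, intervalIntegral.integral_zero]

lemma pd_smooth {v : V 4 → ℝ} (hv : ContDiff ℝ ∞ v) (i : Fin 4) : ContDiff ℝ ∞ (pd i v) := by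
  unfold pd
  exact (hv.fderiv_right (m := ∞) (by simp)).clm_apply contDiff_const

lemma hline {v : V 4 → ℝ} (hv : ContDiff ℝ ∞ v) (i : Fin 4) (L : ℝ → V 4)
    (hL : ∀ s, HasDerivAt L (Pi.single i 1) s) (s : ℝ) :
    HasDerivAt (fun s => v (L s)) (pd i v (L s)) s :=
  ((hv.differentiable (by simp)) (L s)).hasFDerivAt.comp_hasDerivAt s (hL s)

/-- the derivative of `u * u_i` in direction `i` -/
def DD (u : V 4 → ℝ) (i : Fin 4) (x : V 4) : ℝ := pd i u x ^ 2 + u x * pd i (pd i u) x

lemma DD_cont {u : V 4 → ℝ} (hu : ContDiff ℝ ∞ u) (i : Fin 4) : Continuous (DD u i) := by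
  have h1 := (pd_smooth hu i).continuous
  have h2 := (pd_smooth (pd_smooth hu i) i).continuous
  have h3 := hu.continuous
  unfold DD
  fun_prop

lemma ftc {u : V 4 → ℝ} (hu : ContDiff ℝ ∞ u) (i : Fin 4) (L : ℝ → V 4)
    (hL : ∀ s, HasDerivAt L (Pi.single i 1) s) (P Q : ℝ) :
    ∫ s in P..Q, DD u i (L s) = u (L Q) * pd i u (L Q) - u (L P) * pd i u (L P) := by
  have hLc : Continuous L := continuous_iff_continuousAt.mpr (fun s => (hL s).continuousAt)
  apply intervalIntegral.integral_eq_sub_of_hasDerivAt (f := fun s => u (L s) * pd i u (L s))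
  · intro s _
    have h1 := hline hu i L hL s
    have h2 := hline (pd_smooth hu i) i L hL s
    have h3 := h1.mul h2
    have h4 : DD u i (L s) = pd i u (L s) * pd i u (L s) + u (L s) * pd i (pd i u) (L s) := by
      unfold DD
      ring
    rw [h4]
    exact h3
  · exact ((DD_cont hu i).comp hLc).intervalIntegrable _ _

lemma zper {u : V 4 → ℝ} (hu : ContDiff ℝ ∞ u)
    (hper : ∀ x ∈ strip 3, ∀ i : Fin 3, u (x + Pi.single i.succ (2 * Real.pi)) = u x)
    (j : Fin 3) (L : ℝ → V 4) (hL : ∀ s, HasDerivAt L (Pi.single j.succ 1) s)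
    (hst : ∀ s, L s ∈ strip 3)
    (hp : ∀ s, L (s + 2 * Real.pi) = L s + Pi.single j.succ (2 * Real.pi)) :
    ∫ s in (0 : ℝ)..(2 * Real.pi), DD u j.succ (L s) = 0 := by
  rw [ftc hu j.succ L hL]
  have h1 : ∀ s, u (L (s + 2 * Real.pi)) = u (L s) := fun s => by
    rw [hp s, hper _ (hst s)]
  have h2 : pd j.succ u (L (0 + 2 * Real.pi)) = pd j.succ u (L 0) := by
    have h3 := hline hu j.succ L hL 0
    have h4 : HasDerivAt (fun s => u (L (s + 2 * Real.pi))) (pd j.succ u (L (0 + 2 * Real.pi))) 0 :=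
      (hline hu j.succ L hL (0 + 2 * Real.pi)).comp_add_const 0 (2 * Real.pi)
    simp only [h1] at h4
    exact h4.unique h3
  have h5 := h1 0
  rw [zero_add] at h2 h5
  rw [h2, h5, sub_self]

lemma l0 (a b c t : ℝ) : HasDerivAt (fun t : ℝ => (![t, a, b, c] : V 4)) (Pi.single 0 1) t := by
  rw [hasDerivAt_pi]
  intro j
  fin_cases j
  · simpa using hasDerivAt_id' t
  · simpa using hasDerivAt_const t a
  · simpa using hasDerivAt_const t b
  · simpa using hasDerivAt_const t c

lemma l1 (t b c s : ℝ) : HasDerivAt (fun a : ℝ => (![t, a, b, c] : V 4)) (Pi.single 1 1) s := by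
  rw [hasDerivAt_pi]
  intro j
  fin_cases j
  · simpa using hasDerivAt_const s t
  · simpa using hasDerivAt_id' s
  · simpa using hasDerivAt_const s b
  · simpa using hasDerivAt_const s c

lemma l2 (t a c s : ℝ) : HasDerivAt (fun b : ℝ => (![t, a, b, c] : V 4)) (Pi.single 2 1) s := by
  rw [hasDerivAt_pi]
  intro j
  fin_cases j
  · simpa using hasDerivAt_const s t
  · simpa using hasDerivAt_const s a
  · simpa using hasDerivAt_id' s
  · simpa using hasDerivAt_const s c

lemma l3 (t a b s : ℝ) : HasDerivAt (fun c : ℝ => (![t, a, b, c] : V 4)) (Pi.single 3 1) s := by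
  rw [hasDerivAt_pi]
  intro j
  fin_cases j
  · simpa using hasDerivAt_const s t
  · simpa using hasDerivAt_const s a
  · simpa using hasDerivAt_const s b
  · simpa using hasDerivAt_id' s

lemma q_cont : Continuous q := by
  unfold q
  fun_prop

lemma q_inv_cont : Continuous (fun t => (q t)⁻¹) :=
  q_cont.inv₀ (fun t => (Real.exp_pos _).ne')

theorem Ene_proof : Ene := by
  intro lam u hs
  obtain ⟨hu, hper, hpde, hbd⟩ := hs
  have hx0 : Continuous (fun x : V 4 => x 0) := continuous_apply 0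
  have hq : Continuous (fun x : V 4 => q (x 0)) := q_cont.comp hx0
  have hqi : Continuous (fun x : V 4 => (q (x 0))⁻¹) := q_inv_cont.comp hx0
  have d0 := DD_cont hu 0
  have d1 : Continuous (fun x : V 4 => ((q (x 0))⁻¹) ^ 2 * DD u 1 x) := (hqi.pow 2).mul (DD_cont hu 1)
  have d2 : Continuous (fun x : V 4 => (q (x 0)) ^ 2 * DD u 2 x) := (hq.pow 2).mul (DD_cont hu 2)
  have d3 : Continuous (fun x : V 4 => (q (x 0)) ^ 2 * DD u 3 x) := (hq.pow 2).mul (DD_cont hu 3)
  have e : box (fun x => (pd 0 u x) ^ 2 + ((q (x 0))⁻¹) ^ 2 * (pd 1 u x) ^ 2 +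
      q (x 0) ^ 2 * ((pd 2 u x) ^ 2 + (pd 3 u x) ^ 2) - lam * q (x 0) * (u x) ^ 2) =
      box (fun x => ((DD u 0 x + ((q (x 0))⁻¹) ^ 2 * DD u 1 x) + (q (x 0)) ^ 2 * DD u 2 x) +
        (q (x 0)) ^ 2 * DD u 3 x) := by
    apply box_congr
    intro x hx
    have h := hpde x hx
    unfold DD
    linear_combination (-u x) * h
  rw [e, box_add (F := fun x => (DD u 0 x + ((q (x 0))⁻¹) ^ 2 * DD u 1 x) +
      (q (x 0)) ^ 2 * DD u 2 x) ((d0.add d1).add d2) d3,
    box_add (F := fun x => DD u 0 x + ((q (x 0))⁻¹) ^ 2 * DD u 1 x) (d0.add d1) d2,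
    box_add d0 d1]
  have z0 : box (DD u 0) = 0 := by
    apply Z0 d0
    intro a b c
    rw [ftc hu 0 (fun t : ℝ => (![t, a, b, c] : V 4)) (l0 a b c)]
    have h1 := hbd ![1, a, b, c] (by simp)
    have h2 := hbd ![-1, a, b, c] (by simp)
    have h1' : pd 0 u ![1, a, b, c] = 0 := by simpa using h1
    have h2' : pd 0 u ![-1, a, b, c] = 0 := by simpa using h2
    rw [h1', h2']
    ring
  have z1 : box (fun x : V 4 => ((q (x 0))⁻¹) ^ 2 * DD u 1 x) = 0 := by
    apply Z1 d1
    intro t ht b c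
    have h1 := zper hu hper 0 (fun a : ℝ => (![t, a, b, c] : V 4)) (l1 t b c)
      (fun s => mem_strip t s b c ht) (by
        intro s
        ext j
        fin_cases j <;> simp)
    have h2 : ∀ a : ℝ, ((q ((![t, a, b, c] : V 4) 0))⁻¹) ^ 2 * DD u 1 ![t, a, b, c] =
        ((q t)⁻¹) ^ 2 * DD u 1 ![t, a, b, c] := fun a => rfl
    simp only [h2]
    rw [intervalIntegral.integral_const_mul]
    have h3 : ∫ s in (0 : ℝ)..(2 * Real.pi), DD u 1 ![t, s, b, c] = 0 := h1
    rw [h3, mul_zero]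
  have z2 : box (fun x : V 4 => (q (x 0)) ^ 2 * DD u 2 x) = 0 := by
    apply Z2 d2
    intro t ht a c
    have h1 := zper hu hper 1 (fun b : ℝ => (![t, a, b, c] : V 4)) (l2 t a c)
      (fun s => mem_strip t a s c ht) (by
        intro s
        ext j
        fin_cases j <;> simp)
    have h2 : ∀ b : ℝ, (q ((![t, a, b, c] : V 4) 0)) ^ 2 * DD u 2 ![t, a, b, c] =
        (q t) ^ 2 * DD u 2 ![t, a, b, c] := fun b => rfl
    simp only [h2]
    rw [intervalIntegral.integral_const_mul]
    have h3 : ∫ s in (0 : ℝ)..(2 * Real.pi), DD u 2 ![t, a, s, c] = 0 := h1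
    rw [h3, mul_zero]
  have z3 : box (fun x : V 4 => (q (x 0)) ^ 2 * DD u 3 x) = 0 := by
    apply Z3
    intro t ht a b
    have h1 := zper hu hper 2 (fun c : ℝ => (![t, a, b, c] : V 4)) (l3 t a b)
      (fun s => mem_strip t a b s ht) (by
        intro s
        ext j
        fin_cases j <;> simp)
    have h2 : ∀ c : ℝ, (q ((![t, a, b, c] : V 4) 0)) ^ 2 * DD u 3 ![t, a, b, c] =
        (q t) ^ 2 * DD u 3 ![t, a, b, c] := fun c => rfl
    simp only [h2]
    rw [intervalIntegral.integral_const_mul]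
    have h3 : ∫ s in (0 : ℝ)..(2 * Real.pi), DD u 3 ![t, a, b, s] = 0 := h1
    rw [h3, mul_zero]
  rw [z0, z1, z2, z3]
  ring

end

end Pool.Agent.W8.STC.W506Ene
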