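import Pool.Agent.W8.ST.Stm

/- copy of Pool/Agent/W889/ST/Gst.lean, written by helper889 -/

/-!
Project ST, part Gst: existence of the ground state.
-/

open MeasureTheory intervalIntegral
open scoped ContDiff

namespace Pool.Agent.W8.STC.W889Gst

open Pool.Agent.W8.ST

theorem gst_q_cont : Continuous q := by
  unfold q
  fun_prop

theorem gst_q_pos (t : ℝ) : 0 < q t := Real.exp_pos _

theorem gst_f_cont (l : ℝ) : Continuous (fun t => ((q t)⁻¹) ^ 2 - l * q t) := by
  have h1 := gst_q_cont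
  have h2 : Continuous (fun t => (q t)⁻¹) := h1.inv₀ (fun t => (gst_q_pos t).ne')
  fun_prop

/-- the solution for the parameter zero -/
theorem gst_zero (w : ℝ → ℝ) (hw : ContDiff ℝ ∞ w) (h1 : w (-1) = 1) (h2 : deriv w (-1) = 0)
    (h3 : ∀ t, deriv (deriv w) t = (((q t)⁻¹) ^ 2 - 0 * q t) * w t) :
    (∀ t ∈ Set.Icc (-1 : ℝ) 1, 0 < w t) ∧ 0 < deriv w 1 := by
  have hd : Differentiable ℝ w := hw.differentiable (by simp)
  have hw' : ContDiff ℝ ∞ (deriv w) := by
    have : ContDiff ℝ (∞ + 1) w := by simpa using hw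
    exact (contDiff_succ_iff_deriv.1 this).2.2
  have hd' : Differentiable ℝ (deriv w) := hw'.differentiable (by simp)
  have e1 : ∀ t, HasDerivAt (fun t => w t * deriv w t)
      ((deriv w t) ^ 2 + ((q t)⁻¹) ^ 2 * (w t) ^ 2) t := by
    intro t
    have := (hd t).hasDerivAt.mul (hd' t).hasDerivAt
    refine this.congr_deriv ?_
    rw [h3]; ring
  have e2 : ∀ t, HasDerivAt (fun t => w t * w t) (2 * (w t * deriv w t)) t := by
    intro t
    have := (hd t).hasDerivAt.mul (hd t).hasDerivAt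
    refine this.congr_deriv ?_
    ring
  have m1 : Monotone (fun t => w t * deriv w t) := by
    apply monotone_of_deriv_nonneg (fun t => (e1 t).differentiableAt)
    intro t
    rw [(e1 t).deriv]
    positivity
  have n1 : ∀ t ∈ Set.Icc (-1 : ℝ) 1, 0 ≤ w t * deriv w t := by
    intro t ht
    have := m1 ht.1
    simp only [h1, h2] at this
    linarith
  have m2 : MonotoneOn (fun t => w t * w t) (Set.Icc (-1 : ℝ) 1) := by
    apply monotoneOn_of_deriv_nonneg (convex_Icc _ _)
      (fun t _ => (e2 t).continuousAt.continuousWithinAt)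
      (fun t _ => (e2 t).differentiableAt.differentiableWithinAt)
    intro t ht
    rw [interior_Icc] at ht
    rw [(e2 t).deriv]
    have := n1 t ⟨ht.1.le, ht.2.le⟩
    linarith
  have n2 : ∀ t ∈ Set.Icc (-1 : ℝ) 1, 1 ≤ w t * w t := by
    intro t ht
    have := m2 (Set.left_mem_Icc.2 (by norm_num)) ht ht.1
    simp only [h1] at this
    linarith
  have n3 : ∀ t ∈ Set.Icc (-1 : ℝ) 1, 0 < w t := by
    intro t ht
    by_contra hcon
    push Not at hcon
    have hc : ContinuousOn w (Set.Icc (-1) t) := hd.continuous.continuousOn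
    have := intermediate_value_Icc' ht.1 hc
    have h0 : (0 : ℝ) ∈ Set.Icc (w t) (w (-1)) := ⟨hcon, by rw [h1]; norm_num⟩
    obtain ⟨s, hs, hs0⟩ := this h0
    have := n2 s ⟨hs.1, hs.2.trans ht.2⟩
    rw [hs0] at this
    norm_num at this
  refine ⟨n3, ?_⟩
  have h4 : StrictMonoOn (fun t => w t * deriv w t) (Set.Icc (-1 : ℝ) 1) := by
    apply strictMonoOn_of_deriv_pos (convex_Icc _ _)
      (fun t _ => (e1 t).continuousAt.continuousWithinAt)
    intro t ht
    rw [interior_Icc] at ht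
    rw [(e1 t).deriv]
    have p1 := n3 t ⟨ht.1.le, ht.2.le⟩
    have p2 := inv_pos.2 (gst_q_pos t)
    positivity
  have h5 := h4 (Set.left_mem_Icc.2 (by norm_num)) (Set.right_mem_Icc.2 (by norm_num))
    (by norm_num : (-1 : ℝ) < 1)
  simp only [h1, h2] at h5
  have h6 := n3 1 ⟨by norm_num, le_refl _⟩
  by_contra hcon
  push Not at hcon
  nlinarith

theorem Gst_proof : Gst := by
  intro hO hU hP hT
  obtain ⟨w, c1, c2, c3, c4, c5, c6⟩ := hO
  obtain ⟨τ, t1, t2⟩ := hT
  -- the set of bad parameters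
  have hne : ¬ ((∀ t ∈ Set.Icc (-1 : ℝ) 1, 0 < w (1 / 2) t) ∧ 0 ≤ deriv (w (1 / 2)) 1) := by
    rintro ⟨a, b⟩
    have := hP (fun t => ((q t)⁻¹) ^ 2 - 1 / 2 * q t) (w (1 / 2)) τ (gst_f_cont (1 / 2))
      (by exact_mod_cast contDiff_infty.1 (c1 _) 2) t1 a (fun t _ => c4 _ t) (c3 _) b
    linarith
  have h0 := gst_zero (w 0) (c1 0) (c2 0) (c3 0) (fun t => c4 0 t)
  set B : Set ℝ := {l | l ∈ Set.Icc (0 : ℝ) (1 / 2) ∧
    ((∃ t ∈ Set.Icc (-1 : ℝ) 1, w l t ≤ 0) ∨ deriv (w l) 1 ≤ 0)} with hB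
  have hBne : B.Nonempty := by
    refine ⟨1 / 2, ⟨by norm_num, le_refl _⟩, ?_⟩
    by_contra hcon
    push Not at hcon
    exact hne ⟨hcon.1, hcon.2.le⟩
  have hBcl : IsClosed B := by
    have k1 : IsClosed {l : ℝ | l ∈ Set.Icc (0 : ℝ) (1 / 2)} := isClosed_Icc
    have k2 : IsClosed {l : ℝ | ∃ t ∈ Set.Icc (-1 : ℝ) 1, w l t ≤ 0} := by
      have kc : IsClosed {p : ℝ × ℝ | w p.1 p.2 ≤ 0} := isClosed_le c5 continuous_const
      have kk : IsClosed {p : ℝ × (Set.Icc (-1 : ℝ) 1) | w p.1 p.2 ≤ 0} :=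
        kc.preimage (f := fun p : ℝ × (Set.Icc (-1 : ℝ) 1) => ((p.1, (p.2 : ℝ)) : ℝ × ℝ))
          (by fun_prop)
      have km := isClosedMap_fst_of_compactSpace (X := ℝ) (Y := Set.Icc (-1 : ℝ) 1) _ kk
      convert km using 1
      ext l
      constructor
      · rintro ⟨t, ht, hl⟩
        exact ⟨(l, ⟨t, ht⟩), hl, rfl⟩
      · rintro ⟨⟨l', t⟩, hl, rfl⟩
        exact ⟨t, t.2, hl⟩
    have k3 : IsClosed {l : ℝ | deriv (w l) 1 ≤ 0} := by
      refine isClosed_le ?_ continuous_const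
      exact c6.comp (by fun_prop : Continuous (fun l : ℝ => (l, (1 : ℝ))))
    exact k1.inter (k2.union k3)
  have hBbd : BddBelow B := ⟨0, fun l hl => hl.1.1⟩
  have hmem : sInf B ∈ B := hBcl.csInf_mem hBne hBbd
  set lam := sInf B with hlam
  have hlam0 : 0 < lam := by
    rcases lt_or_eq_of_le hmem.1.1 with h | h
    · exact h
    · exfalso
      rcases hmem.2 with ⟨t, ht, hl⟩ | hl
      · rw [← h] at hl
        exact absurd (h0.1 t ht) (not_lt.2 hl)
      · rw [← h] at hl
        exact absurd h0.2 (not_lt.2 hl)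
  have hlt : ∀ l, 0 ≤ l → l < lam → (∀ t ∈ Set.Icc (-1 : ℝ) 1, 0 < w l t) ∧
      0 < deriv (w l) 1 := by
    intro l hl0 hl
    have hnot : l ∉ B := fun h => absurd (csInf_le hBbd h) (not_le.2 hl)
    by_contra hcon
    apply hnot
    refine ⟨⟨hl0, hl.le.trans hmem.1.2⟩, ?_⟩
    by_contra hcon2
    push Not at hcon2
    exact hcon hcon2
  have hge : (∀ t ∈ Set.Icc (-1 : ℝ) 1, 0 ≤ w lam t) ∧ 0 ≤ deriv (w lam) 1 := by
    have hseq : Filter.Tendsto (fun l : ℝ => l) (nhdsWithin lam (Set.Iio lam)) (nhds lam) :=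
      nhdsWithin_le_nhds
    have hev : ∀ᶠ l in nhdsWithin lam (Set.Iio lam), 0 ≤ l ∧ l < lam := by
      filter_upwards [self_mem_nhdsWithin, nhdsWithin_le_nhds (lt_mem_nhds hlam0)] with l a b
      exact ⟨le_of_lt b, a⟩
    constructor
    · intro t ht
      have hc : Continuous (fun l : ℝ => w l t) :=
        c5.comp (by fun_prop : Continuous (fun l : ℝ => (l, t)))
      have ht2 : Filter.Tendsto (fun l : ℝ => w l t) (nhdsWithin lam (Set.Iio lam))
          (nhds (w lam t)) := (hc.tendsto lam).mono_left nhdsWithin_le_nhds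
      exact ge_of_tendsto ht2 (hev.mono fun l hl => ((hlt l hl.1 hl.2).1 t ht).le)
    · have hc : Continuous (fun l : ℝ => deriv (w l) 1) :=
        c6.comp (by fun_prop : Continuous (fun l : ℝ => (l, (1 : ℝ))))
      have ht2 : Filter.Tendsto (fun l : ℝ => deriv (w l) 1) (nhdsWithin lam (Set.Iio lam))
          (nhds (deriv (w lam) 1)) := (hc.tendsto lam).mono_left nhdsWithin_le_nhds
      exact ge_of_tendsto ht2 (hev.mono fun l hl => ((hlt l hl.1 hl.2).2).le)
  have hdiff : Differentiable ℝ (w lam) := (c1 lam).differentiable (by simp)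
  have huni : ∀ s ∈ Set.Icc (-1 : ℝ) 1, w lam s = 0 → deriv (w lam) s ≠ 0 := by
    intro s hs h1 h2
    have := hU (fun t => ((q t)⁻¹) ^ 2 - lam * q t) (w lam) s (gst_f_cont lam)
      (by exact_mod_cast contDiff_infty.1 (c1 _) 2) hs (fun t _ => c4 _ t) h1 h2 (-1)
      ⟨le_refl _, by norm_num⟩
    rw [c2] at this
    norm_num at this
  have hpos : ∀ t ∈ Set.Icc (-1 : ℝ) 1, 0 < w lam t := by
    intro t ht
    rcases lt_or_eq_of_le (hge.1 t ht) with h | h
    · exact h
    · exfalso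
      apply huni t ht h.symm
      have hm1 : t ≠ -1 := by
        rintro rfl
        rw [c2] at h
        norm_num at h
      have hmin : IsMinOn (w lam) (Set.Icc (-1 : ℝ) 1) t := by
        intro s hs
        show w lam t ≤ w lam s
        rw [← h]
        exact hge.1 s hs
      rcases lt_or_eq_of_le ht.2 with h1 | h1
      · have hloc : IsLocalMin (w lam) t := hmin.isLocalMin
          (Icc_mem_nhds (lt_of_le_of_ne ht.1 (Ne.symm hm1)) h1)
        exact hloc.deriv_eq_zero
      · subst h1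
        -- the derivative at the right end is nonpositive
        have hle : deriv (w lam) 1 ≤ 0 := by
          have hd2 := (hasDerivWithinAt_iff_tendsto_slope' (by simp)).1
            ((hdiff 1).hasDerivAt.hasDerivWithinAt (s := Set.Iio 1))
          refine le_of_tendsto hd2 ?_
          have hev : ∀ᶠ s in nhdsWithin (1 : ℝ) (Set.Iio 1), -1 < s ∧ s < 1 := by
            filter_upwards [self_mem_nhdsWithin,
              nhdsWithin_le_nhds (lt_mem_nhds (by norm_num : (-1 : ℝ) < 1))] with l a b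
            exact ⟨b, a⟩
          filter_upwards [hev] with s hs
          rw [slope_def_field, ← h]
          have := hge.1 s ⟨hs.1.le, hs.2.le⟩
          apply div_nonpos_of_nonneg_of_nonpos <;> linarith [hs.2]
        exact le_antisymm hle hge.2
  have hd1 : deriv (w lam) 1 = 0 := by
    rcases hmem.2 with ⟨t, ht, hl⟩ | hl
    · exact absurd (hpos t ht) (not_lt.2 hl)
    · exact le_antisymm hl hge.2
  refine ⟨lam, w lam, hlam0, ?_, c1 lam, hpos, fun t _ => c4 lam t, c3 lam, hd1⟩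
  rcases lt_or_eq_of_le hmem.1.2 with h | h
  · exact h
  · exfalso
    apply hne
    rw [← h]
    exact ⟨hpos, hge.2⟩

end Pool.Agent.W8.STC.W889Gst
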