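
import Pool.Agent.W8.ST.Stm

/- copy of Pool/Agent/W918/ST/InA.lean, written by helper918 -/

set_option autoImplicit false
set_option linter.all false

open MeasureTheory intervalIntegral
open scoped ContDiff

namespace Pool.Agent.W8.STC.W918InA

open Pool.Agent.W8.ST

theorem q_cont : Continuous q := by
  unfold q
  fun_prop

theorem q_ge (t : ℝ) (h0 : 0 ≤ t) (h1 : t ≤ 1) : 1 ≤ q t := by
  unfold q
  rw [Real.one_le_exp_iff]
  have h2 : 0 ≤ 1 - t ^ 2 := by nlinarith
  positivity

/-- Cauchy-Schwarz on an interval of length one. -/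
theorem cs (w : ℝ → ℝ) (hw : ContDiff ℝ 1 w) (s : ℝ) (h1 : -1 ≤ s) (h2 : s ≤ 0) :
    (w (s + 1) - w s) ^ 2 ≤ ∫ t in (-1 : ℝ)..1, (deriv w t) ^ 2 := by
  have hc : Continuous (deriv w) := hw.continuous_deriv le_rfl
  have hd : Differentiable ℝ w := hw.differentiable one_ne_zero
  have hftc : ∫ t in s..(s + 1), deriv w t = w (s + 1) - w s :=
    integral_deriv_eq_sub (fun x _ => hd x) (hc.intervalIntegrable _ _)
  set c : ℝ := w (s + 1) - w s with hcdef
  have h3 : 0 ≤ ∫ t in s..(s + 1), (deriv w t - c) ^ 2 :=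
    intervalIntegral.integral_nonneg (by linarith) (fun _ _ => sq_nonneg _)
  have h4 : ∫ t in s..(s + 1), (deriv w t - c) ^ 2 =
      (∫ t in s..(s + 1), (deriv w t) ^ 2) - c ^ 2 := by
    have e1 : (fun t => (deriv w t - c) ^ 2) = fun t => (deriv w t) ^ 2 - (2 * c * deriv w t - c ^ 2) := by
      funext t
      ring
    rw [e1, intervalIntegral.integral_sub
      ((by fun_prop : Continuous fun t => deriv w t ^ 2).intervalIntegrable _ _)
      ((by fun_prop : Continuous fun t => 2 * c * deriv w t - c ^ 2).intervalIntegrable _ _),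
      intervalIntegral.integral_sub
      ((by fun_prop : Continuous fun t => 2 * c * deriv w t).intervalIntegrable _ _)
      (continuous_const.intervalIntegrable _ _),
      intervalIntegral.integral_const_mul, hftc, intervalIntegral.integral_const]
    simp only [smul_eq_mul]
    ring
  have h5 : ∫ t in s..(s + 1), (deriv w t) ^ 2 ≤ ∫ t in (-1 : ℝ)..1, (deriv w t) ^ 2 := by
    apply intervalIntegral.integral_mono_interval h1 (by linarith) (by linarith)
    · filter_upwards with t
      exact sq_nonneg _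
    · exact (hc.pow 2).intervalIntegrable _ _
  linarith

theorem InA_proof : InA := by
  intro lam w h0 h1 hw
  have hc : Continuous (deriv w) := hw.continuous_deriv le_rfl
  have hwc : Continuous w := hw.continuous
  have hqc := q_cont
  set P : ℝ := ∫ t in (-1 : ℝ)..1, (deriv w t) ^ 2 with hP
  have hP0 : 0 ≤ P := intervalIntegral.integral_nonneg (by norm_num) (fun _ _ => sq_nonneg _)
  -- the first half
  have hN : ∫ t in (-1 : ℝ)..0, (w t) ^ 2 ≤ 2 * (∫ t in (0 : ℝ)..1, (w t) ^ 2) + 2 * P := by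
    have h2 : ∫ t in (-1 : ℝ)..0, (w t) ^ 2 ≤
        ∫ t in (-1 : ℝ)..0, (2 * (w (t + 1)) ^ 2 + 2 * P) := by
      apply intervalIntegral.integral_mono_on (by norm_num)
      · exact (hwc.pow 2).intervalIntegrable _ _
      · exact (by fun_prop : Continuous fun t => 2 * (w (t + 1)) ^ 2 + 2 * P).intervalIntegrable _ _
      · intro t ht
        have h3 := cs w hw t ht.1 ht.2
        nlinarith [sq_nonneg (w (t + 1) + (w (t + 1) - w t)), sq_nonneg (2 * w (t + 1) - w t)]
    have h3 : ∫ t in (-1 : ℝ)..0, (2 * (w (t + 1)) ^ 2 + 2 * P) =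
        2 * (∫ t in (0 : ℝ)..1, (w t) ^ 2) + 2 * P := by
      rw [intervalIntegral.integral_add
        ((by fun_prop : Continuous fun t => 2 * (w (t + 1)) ^ 2).intervalIntegrable _ _)
        (continuous_const.intervalIntegrable _ _), intervalIntegral.integral_const_mul,
        intervalIntegral.integral_comp_add_right (fun t => (w t) ^ 2) 1,
        intervalIntegral.integral_const]
      norm_num
    linarith
  -- splitting
  have hs1 : ∫ t in (-1 : ℝ)..1, (w t) ^ 2 =
      (∫ t in (-1 : ℝ)..0, (w t) ^ 2) + ∫ t in (0 : ℝ)..1, (w t) ^ 2 :=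
    (intervalIntegral.integral_add_adjacent_intervals ((hwc.pow 2).intervalIntegrable _ _)
      ((hwc.pow 2).intervalIntegrable _ _)).symm
  have hs2 : P = (∫ t in (-1 : ℝ)..0, (deriv w t) ^ 2) + ∫ t in (0 : ℝ)..1, (deriv w t) ^ 2 :=
    (intervalIntegral.integral_add_adjacent_intervals ((hc.pow 2).intervalIntegrable _ _)
      ((hc.pow 2).intervalIntegrable _ _)).symm
  have hF : Continuous fun t => (deriv w t) ^ 2 + (q t ^ 2 - lam * q t) * (w t) ^ 2 := by
    fun_prop
  have hs3 : ∫ t in (-1 : ℝ)..1, ((deriv w t) ^ 2 + (q t ^ 2 - lam * q t) * (w t) ^ 2) =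
      (∫ t in (-1 : ℝ)..0, ((deriv w t) ^ 2 + (q t ^ 2 - lam * q t) * (w t) ^ 2)) +
      ∫ t in (0 : ℝ)..1, ((deriv w t) ^ 2 + (q t ^ 2 - lam * q t) * (w t) ^ 2) :=
    (intervalIntegral.integral_add_adjacent_intervals (hF.intervalIntegrable _ _)
      (hF.intervalIntegrable _ _)).symm
  have ha : (∫ t in (-1 : ℝ)..0, (deriv w t) ^ 2) - 1 / 16 * (∫ t in (-1 : ℝ)..0, (w t) ^ 2) ≤
      ∫ t in (-1 : ℝ)..0, ((deriv w t) ^ 2 + (q t ^ 2 - lam * q t) * (w t) ^ 2) := by
    rw [← intervalIntegral.integral_const_mul, ← intervalIntegral.integral_sub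
      ((by fun_prop : Continuous fun t => deriv w t ^ 2).intervalIntegrable _ _)
      ((by fun_prop : Continuous fun t => 1 / 16 * (w t) ^ 2).intervalIntegrable _ _)]
    apply intervalIntegral.integral_mono_on (by norm_num)
    · exact (by fun_prop : Continuous fun t => (deriv w t) ^ 2 - 1 / 16 * (w t) ^ 2).intervalIntegrable _ _
    · exact hF.intervalIntegrable _ _
    · intro t ht
      have h2 : -(1 / 16) ≤ q t ^ 2 - lam * q t := by
        nlinarith [sq_nonneg (q t - lam / 2), mul_nonneg h0 (by linarith : (0 : ℝ) ≤ 1 / 2 - lam)]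
      have h3 := mul_le_mul_of_nonneg_right h2 (sq_nonneg (w t))
      linarith
  have hb : (∫ t in (0 : ℝ)..1, (deriv w t) ^ 2) + 1 / 2 * (∫ t in (0 : ℝ)..1, (w t) ^ 2) ≤
      ∫ t in (0 : ℝ)..1, ((deriv w t) ^ 2 + (q t ^ 2 - lam * q t) * (w t) ^ 2) := by
    rw [← intervalIntegral.integral_const_mul, ← intervalIntegral.integral_add
      ((by fun_prop : Continuous fun t => deriv w t ^ 2).intervalIntegrable _ _)
      ((by fun_prop : Continuous fun t => 1 / 2 * (w t) ^ 2).intervalIntegrable _ _)]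
    apply intervalIntegral.integral_mono_on (by norm_num)
    · exact (by fun_prop : Continuous fun t => (deriv w t) ^ 2 + 1 / 2 * (w t) ^ 2).intervalIntegrable _ _
    · exact hF.intervalIntegrable _ _
    · intro t ht
      have hq := q_ge t ht.1 ht.2
      have h2 : 1 / 2 ≤ q t ^ 2 - lam * q t := by nlinarith
      have h3 := mul_le_mul_of_nonneg_right h2 (sq_nonneg (w t))
      linarith
  rw [hs1, hs3]
  linarith

end Pool.Agent.W8.STC.W918InA
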