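import Pool.Agent.W8.ST.Stm

/- copy of Pool/Agent/W889/ST/LOp.lean, written by helper889 -/

/-!
Project ST, part LOp: linear operators on the space of solutions.
-/

namespace Pool.Agent.W8.STC.W889LOp

open Pool.Agent.W8.ST

theorem LOp_proof : LOp := by
  intro hS lam sig T h1 h2 h3 h4
  have hE := hS.1 lam sig
  have hex : ∀ v : E lam sig, ∃ u, Sol lam sig u ∧ ∀ x : strip 3, (v : strip 3 → ℝ) x = u x :=
    fun v => (hE v).1 v.2
  choose rep hrep using hex
  refine ⟨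
    { toFun := fun v => ⟨fun x => T (rep v) x, (hE _).2 ⟨T (rep v), h1 _ (hrep v).1,
        fun x => rfl⟩⟩
      map_add' := ?_
      map_smul' := ?_ }, ?_⟩
  · intro v w
    apply Subtype.ext
    funext x
    show T (rep (v + w)) x = T (rep v) x + T (rep w) x
    have hs := hS.2.1 lam sig _ _ (hrep v).1 (hrep w).1
    rw [h2 (rep (v + w)) (rep v + rep w) (hrep (v + w)).1 hs ?_ x x.2]
    · exact h3 _ _ (hrep v).1 (hrep w).1 x x.2
    · intro y hy
      have e1 := (hrep (v + w)).2 ⟨y, hy⟩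
      have e2 := (hrep v).2 ⟨y, hy⟩
      have e3 := (hrep w).2 ⟨y, hy⟩
      have e4 : ((v + w : E lam sig) : strip 3 → ℝ) ⟨y, hy⟩ =
        (v : strip 3 → ℝ) ⟨y, hy⟩ + (w : strip 3 → ℝ) ⟨y, hy⟩ := rfl
      rw [e1, e2, e3] at e4
      exact e4
  · intro c v
    apply Subtype.ext
    funext x
    show T (rep (c • v)) x = c * T (rep v) x
    have hs := hS.2.2 lam sig c _ (hrep v).1
    rw [h2 (rep (c • v)) (c • rep v) (hrep (c • v)).1 hs ?_ x x.2]
    · exact h4 c _ (hrep v).1 x x.2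
    · intro y hy
      have e1 := (hrep (c • v)).2 ⟨y, hy⟩
      have e2 := (hrep v).2 ⟨y, hy⟩
      have e4 : ((c • v : E lam sig) : strip 3 → ℝ) ⟨y, hy⟩ =
        c * (v : strip 3 → ℝ) ⟨y, hy⟩ := rfl
      rw [e1, e2] at e4
      exact e4
  · intro v u hu hvu x
    show T (rep v) x = T u x
    refine h2 _ _ (hrep v).1 hu ?_ x x.2
    intro y hy
    rw [← (hrep v).2 ⟨y, hy⟩, ← hvu ⟨y, hy⟩]

end Pool.Agent.W8.STC.W889LOp
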