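import Pool.Agent.W8.ST.Stm

/- copy of Pool/Agent/W827/ST/NR.lean, written by helper827 -/

set_option autoImplicit false

open scoped ContDiff

namespace Pool.Agent.W8.STC.W827NR.NR

open Pool.Agent.W8.ST

theorem pd_line (u : V 4 → ℝ) (hu : ContDiff ℝ ∞ u) (i : Fin 4) (x : V 4) :
    pd i u x = deriv (fun s : ℝ => u (x + s • (Pi.single i 1 : V 4))) 0 := by
  have h := ((hu.differentiable (by simp)) x).lineDeriv_eq_fderiv (v := (Pi.single i 1 : V 4))
  unfold pd
  rw [← h]
  rfl

theorem pd_smooth (u : V 4 → ℝ) (hu : ContDiff ℝ ∞ u) (i : Fin 4) : ContDiff ℝ ∞ (pd i u) := by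
  unfold pd
  exact (hu.fderiv_right (m := ∞) (by simp)).clm_apply contDiff_const

theorem line_const (u : V 4 → ℝ) (hu : ContDiff ℝ ∞ u)
    (h : ∀ x ∈ strip 3, pd 1 u x = 0 ∧ pd 2 u x = 0 ∧ pd 3 u x = 0) (x : V 4)
    (hx : x ∈ strip 3) : u x = u ![x 0, 0, 0, 0] := by
  set y : V 4 := ![x 0, 0, 0, 0] with hy
  set d : V 4 := x - y with hd
  have hd0 : d 0 = 0 := by
    show x 0 - x 0 = 0
    exact sub_self _
  have hu1 : Differentiable ℝ u := hu.differentiable (by simp)
  have hg : Differentiable ℝ (fun s : ℝ => u (y + s • d)) :=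
    hu1.comp ((differentiable_const _).add (differentiable_id.smul_const _))
  have hder : ∀ s : ℝ, deriv (fun s : ℝ => u (y + s • d)) s = 0 := by
    intro s
    have h1 : HasDerivAt (fun s : ℝ => y + s • d) d s := by
      have := ((hasDerivAt_id s).smul_const d).const_add y
      simpa using this
    have h2 := ((hu1 (y + s • d)).hasFDerivAt).comp_hasDerivAt s h1
    have h3 : fderiv ℝ u (y + s • d) d = 0 := by
      have hz : (y + s • d) ∈ strip 3 := by
        show |(y + s • d) 0| ≤ 1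
        have : (y + s • d) 0 = x 0 := by simp [hd0, hy]
        rw [this]; exact hx
      have hsum : d = ∑ i : Fin 4, d i • (Pi.single i (1 : ℝ) : V 4) := by
        ext j
        fin_cases j <;> simp [Fin.sum_univ_four, Pi.single_apply]
      obtain ⟨e1, e2, e3⟩ := h _ hz
      unfold pd at e1 e2 e3
      rw [hsum, map_sum, Fin.sum_univ_four]
      simp only [map_smul, hd0, zero_smul, zero_add, smul_eq_mul]
      rw [← hsum, e1, e2, e3]
      simp
    exact h2.deriv.trans h3
  have h4 := is_const_of_deriv_eq_zero hg hder 1 0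
  simpa [hd] using h4

theorem w_deriv (u : V 4 → ℝ) (hu : ContDiff ℝ ∞ u) (t : ℝ) :
    deriv (fun t : ℝ => u ![t, 0, 0, 0]) t = pd 0 u ![t, 0, 0, 0] := by
  rw [pd_line u hu]
  have e : (fun s : ℝ => u ((![t, 0, 0, 0] : V 4) + s • (Pi.single 0 1 : V 4))) =
      fun s : ℝ => (fun t : ℝ => u ![t, 0, 0, 0]) (t + s) := by
    funext s
    show u _ = u _
    congr 1
    ext j
    fin_cases j <;> simp
  rw [e]
  exact ((deriv_comp_const_add (fun t : ℝ => u ![t, 0, 0, 0]) t 0).trans (by rw [add_zero])).symm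

theorem w_smooth (u : V 4 → ℝ) (hu : ContDiff ℝ ∞ u) :
    ContDiff ℝ ∞ (fun t : ℝ => u ![t, 0, 0, 0]) := by
  refine hu.comp (contDiff_pi.mpr (fun i => ?_))
  fin_cases i
  · exact contDiff_id
  · exact contDiff_const
  · exact contDiff_const
  · exact contDiff_const

theorem pd_zero (u : V 4 → ℝ) (hu : ContDiff ℝ ∞ u) (i : Fin 4) (hi : i ≠ 0)
    (h : ∀ x ∈ strip 3, u x = 0) (x : V 4) (hx : x ∈ strip 3) : pd i u x = 0 := by
  rw [pd_line u hu]
  have e : (fun s : ℝ => u (x + s • (Pi.single i 1 : V 4))) = fun _ => 0 := by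
    funext s
    apply h
    show |(x + s • (Pi.single i 1 : V 4)) 0| ≤ 1
    have : (x + s • (Pi.single i 1 : V 4)) 0 = x 0 := by
      simp [Pi.single_apply, hi.symm]
    rw [this]; exact hx
  rw [e]
  simp

theorem prod_smooth (φ c : ℝ → ℝ) (hφ : ContDiff ℝ ∞ φ) (hc : ContDiff ℝ ∞ c) :
    ContDiff ℝ ∞ (fun x : V 4 => φ (x 0) * c (x 1)) :=
  (hφ.comp (contDiff_apply ℝ ℝ 0)).mul (hc.comp (contDiff_apply ℝ ℝ 1))

theorem prod_pd0 (φ c : ℝ → ℝ) (hφ : ContDiff ℝ ∞ φ) (hc : ContDiff ℝ ∞ c) :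
    pd 0 (fun x : V 4 => φ (x 0) * c (x 1)) = fun x : V 4 => deriv φ (x 0) * c (x 1) := by
  funext x
  rw [pd_line _ (prod_smooth φ c hφ hc)]
  have e : (fun s : ℝ => φ ((x + s • (Pi.single 0 1 : V 4)) 0) *
      c ((x + s • (Pi.single 0 1 : V 4)) 1)) = fun s => φ (x 0 + s) * c (x 1) := by
    funext s
    simp
  rw [e]
  have h1 : HasDerivAt φ (deriv φ (x 0)) (x 0 + 0) := by
    rw [add_zero]
    exact ((hφ.differentiable (by simp)) (x 0)).hasDerivAt
  exact (h1.comp_const_add.mul_const (c (x 1))).deriv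

theorem prod_pd1 (φ c : ℝ → ℝ) (hφ : ContDiff ℝ ∞ φ) (hc : ContDiff ℝ ∞ c) :
    pd 1 (fun x : V 4 => φ (x 0) * c (x 1)) = fun x : V 4 => φ (x 0) * deriv c (x 1) := by
  funext x
  rw [pd_line _ (prod_smooth φ c hφ hc)]
  have e : (fun s : ℝ => φ ((x + s • (Pi.single 1 1 : V 4)) 0) *
      c ((x + s • (Pi.single 1 1 : V 4)) 1)) = fun s => φ (x 0) * c (x 1 + s) := by
    funext s
    simp
  rw [e]
  have h1 : HasDerivAt c (deriv c (x 1)) (x 1 + 0) := by
    rw [add_zero]
    exact ((hc.differentiable (by simp)) (x 1)).hasDerivAt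
  exact (h1.comp_const_add.const_mul (φ (x 0))).deriv

theorem prod_pd23 (φ c : ℝ → ℝ) (hφ : ContDiff ℝ ∞ φ) (hc : ContDiff ℝ ∞ c) (i : Fin 4)
    (h0 : i ≠ 0) (h1 : i ≠ 1) :
    pd i (fun x : V 4 => φ (x 0) * c (x 1)) = fun _ => 0 := by
  funext x
  rw [pd_line _ (prod_smooth φ c hφ hc)]
  have e : (fun s : ℝ => φ ((x + s • (Pi.single i 1 : V 4)) 0) *
      c ((x + s • (Pi.single i 1 : V 4)) 1)) = fun s => φ (x 0) * c (x 1) := by
    funext s
    simp [Pi.single_apply, h0.symm, h1.symm]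
  rw [e]
  simp

/-- the property of the elements of the second space -/
def Q (lam : ℝ) (v : strip 3 → ℝ) : Prop :=
  ∃ w : ℝ → ℝ, ContDiff ℝ ∞ w ∧ (∀ x : strip 3, v x = w ((x : V 4) 0)) ∧
    (∀ t ∈ Set.Icc (-1 : ℝ) 1, deriv (deriv w) t = (-lam * q t) * w t) ∧ deriv w (-1) = 0

theorem q_cont : Continuous q := by
  unfold q
  fun_prop

theorem strip_iff (t a b c : ℝ) (ht : t ∈ Set.Icc (-1 : ℝ) 1) : (![t, a, b, c] : V 4) ∈ strip 3 := by
  show |t| ≤ 1
  exact abs_le.mpr ht

theorem NR_proof : NR := by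
  intro hUni lam ψ hlam hψ hflat
  obtain ⟨hψs, hψpos, hψeq, hψm, hψp⟩ := hψ
  -- elements of the second space
  have hQ : ∀ v ∈ F lam 0 i2, Q lam v := by
    intro v hv
    unfold F at hv
    induction hv using Submodule.span_induction with
    | mem v hv =>
      obtain ⟨u, ⟨hu, hi⟩, hvu⟩ := hv
      have hf := hflat u hu hi
      obtain ⟨hs, _, hpde, hbd⟩ := hu
      refine ⟨fun t => u ![t, 0, 0, 0], w_smooth u hs, ?_, ?_, ?_⟩
      · intro x
        rw [hvu x]
        exact line_const u hs hf x x.2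
      · intro t ht
        have e1 : deriv (fun t : ℝ => u ![t, 0, 0, 0]) = fun t => pd 0 u ![t, 0, 0, 0] :=
          funext (fun t => w_deriv u hs t)
        have hx : (![t, 0, 0, 0] : V 4) ∈ strip 3 := strip_iff t 0 0 0 ht
        have e2 : deriv (fun t : ℝ => pd 0 u ![t, 0, 0, 0]) t = pd 0 (pd 0 u) ![t, 0, 0, 0] :=
          w_deriv (pd 0 u) (pd_smooth u hs 0) t
        have h1 := pd_zero (pd 1 u) (pd_smooth u hs 1) 1 (by decide) (fun x hx => (hf x hx).1) _ hx
        have h2 := pd_zero (pd 2 u) (pd_smooth u hs 2) 2 (by decide)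
          (fun x hx => (hf x hx).2.1) _ hx
        have h3 := pd_zero (pd 3 u) (pd_smooth u hs 3) 3 (by decide)
          (fun x hx => (hf x hx).2.2) _ hx
        have h4 := hpde _ hx
        rw [h1, h2, h3] at h4
        rw [e1, e2]
        have e0 : (![t, 0, 0, 0] : V 4) 0 = t := rfl
        rw [e0] at h4
        show pd 0 (pd 0 u) ![t, 0, 0, 0] = (-lam * q t) * u ![t, 0, 0, 0]
        linarith
      · rw [w_deriv u hs]
        have h5 := hbd ![-1, 0, 0, 0] (by show |(-1 : ℝ)| = 1; simp)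
        have e0 : (![-1, 0, 0, 0] : V 4) 0 = -1 := rfl
        rw [e0] at h5
        linarith
    | zero =>
      refine ⟨fun _ => 0, contDiff_const, fun _ => rfl, ?_, ?_⟩
      · intro t _
        simp
      · simp
    | add a b _ _ iha ihb =>
      obtain ⟨w1, s1, f1, g1, b1⟩ := iha
      obtain ⟨w2, s2, f2, g2, b2⟩ := ihb
      have d1 : Differentiable ℝ w1 := s1.differentiable (by simp)
      have d2 : Differentiable ℝ w2 := s2.differentiable (by simp)
      have s1' : ContDiff ℝ ∞ (deriv w1) := by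
        simpa using (contDiff_infty_iff_deriv.mp s1).2
      have s2' : ContDiff ℝ ∞ (deriv w2) := by
        simpa using (contDiff_infty_iff_deriv.mp s2).2
      have e : deriv (fun t => w1 t + w2 t) = fun t => deriv w1 t + deriv w2 t := by
        funext t
        exact deriv_fun_add (d1 t) (d2 t)
      refine ⟨fun t => w1 t + w2 t, s1.add s2, ?_, ?_, ?_⟩
      · intro x
        rw [Pi.add_apply, f1, f2]
      · intro t ht
        rw [e, deriv_fun_add ((s1'.differentiable (by simp)) t) ((s2'.differentiable (by simp)) t),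
          g1 t ht, g2 t ht]
        ring
      · rw [e]
        show deriv w1 (-1) + deriv w2 (-1) = 0
        rw [b1, b2, add_zero]
    | smul c a _ iha =>
      obtain ⟨w1, s1, f1, g1, b1⟩ := iha
      have d1 : Differentiable ℝ w1 := s1.differentiable (by simp)
      have s1' : ContDiff ℝ ∞ (deriv w1) := by
        simpa using (contDiff_infty_iff_deriv.mp s1).2
      have e : deriv (fun t => c * w1 t) = fun t => c * deriv w1 t := by
        funext t
        exact deriv_const_mul c (d1 t)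
      refine ⟨fun t => c * w1 t, contDiff_const.mul s1, ?_, ?_, ?_⟩
      · intro x
        rw [Pi.smul_apply, f1, smul_eq_mul]
      · intro t ht
        rw [e, deriv_const_mul c ((s1'.differentiable (by simp)) t), g1 t ht]
        ring
      · rw [e]
        show c * deriv w1 (-1) = 0
        rw [b1, mul_zero]
  -- the second space is finite-dimensional
  have hm1 : (-1 : ℝ) ∈ Set.Icc (-1 : ℝ) 1 := by constructor <;> norm_num
  let p0 : strip 3 := ⟨![-1, 0, 0, 0], strip_iff (-1) 0 0 0 hm1⟩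
  let L : F lam 0 i2 →ₗ[ℝ] ℝ := (LinearMap.proj p0).comp (F lam 0 i2).subtype
  have hL : Function.Injective L := by
    rw [← LinearMap.ker_eq_bot, LinearMap.ker_eq_bot']
    intro v hv
    obtain ⟨w, sw, fw, gw, bw⟩ := hQ v v.2
    have hv0 : (v : strip 3 → ℝ) p0 = 0 := hv
    have hw0 : w (-1) = 0 := by
      have := fw p0
      rw [hv0] at this
      exact this.symm
    have h1 := hUni (fun t => -lam * q t) w (-1) (continuous_const.mul q_cont)
      (by exact_mod_cast contDiff_infty.mp sw 2) hm1 gw hw0 bw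
    apply Subtype.ext
    funext x
    rw [fw x]
    exact h1 _ (abs_le.mp x.2)
  haveI hfd : FiniteDimensional ℝ (F lam 0 i2) := FiniteDimensional.of_injective L hL
  -- inclusion
  have hle : F lam 0 i2 ≤ F lam 0 i1 := by
    unfold F
    rw [Submodule.span_le]
    rintro v ⟨u, ⟨hu, hi⟩, hvu⟩
    apply Submodule.subset_span
    refine ⟨u, ⟨hu, ?_⟩, hvu⟩
    intro x hx
    have hf := hflat u hu hi
    have hx' : i1 x ∈ strip 3 := hx
    rw [line_const u hu.1 hf _ hx', line_const u hu.1 hf x hx]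
    rfl
  -- the additional element
  let u1 : V 4 → ℝ := fun x => ψ (x 0) * Real.cos (x 1)
  have hψ' : ContDiff ℝ ∞ (deriv ψ) := by
    simpa using (contDiff_infty_iff_deriv.mp hψs).2
  have hcos : ContDiff ℝ ∞ Real.cos := Real.contDiff_cos
  have hu1 : Sol lam 0 u1 := by
    refine ⟨prod_smooth ψ Real.cos hψs hcos, ?_, ?_, ?_⟩
    · intro x _ i
      show ψ ((x + Pi.single i.succ (2 * Real.pi) : V 4) 0) *
        Real.cos ((x + Pi.single i.succ (2 * Real.pi) : V 4) 1) = ψ (x 0) * Real.cos (x 1)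
      fin_cases i
      · simp [Pi.single_apply]
      · simp [Pi.single_apply]
      · simp [Pi.single_apply]
    · intro x hx
      have hx0 : x 0 ∈ Set.Icc (-1 : ℝ) 1 := abs_le.mp hx
      have e00 : pd 0 (pd 0 u1) x = deriv (deriv ψ) (x 0) * Real.cos (x 1) := by
        show pd 0 (pd 0 (fun x : V 4 => ψ (x 0) * Real.cos (x 1))) x = _
        rw [prod_pd0 ψ Real.cos hψs hcos, prod_pd0 (deriv ψ) Real.cos hψ' hcos]
      have e11 : pd 1 (pd 1 u1) x = ψ (x 0) * (-Real.cos (x 1)) := by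
        show pd 1 (pd 1 (fun x : V 4 => ψ (x 0) * Real.cos (x 1))) x = _
        have hc' : ContDiff ℝ ∞ (deriv Real.cos) := by
          simpa using (contDiff_infty_iff_deriv.mp hcos).2
        rw [prod_pd1 ψ Real.cos hψs hcos, prod_pd1 ψ (deriv Real.cos) hψs hc']
        have e : deriv (deriv Real.cos) (x 1) = -Real.cos (x 1) := by
          rw [Real.deriv_cos']
          simp
        simp only [e]
      have e2 : ∀ i : Fin 4, i ≠ 0 → i ≠ 1 → pd i (pd i u1) x = 0 := by
        intro i h0 h1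
        show pd i (pd i (fun x : V 4 => ψ (x 0) * Real.cos (x 1))) x = _
        rw [prod_pd23 ψ Real.cos hψs hcos i h0 h1]
        unfold pd
        simp
      rw [e00, e11, e2 2 (by decide) (by decide), e2 3 (by decide) (by decide), hψeq _ hx0]
      show _ + lam * q (x 0) * (ψ (x 0) * Real.cos (x 1)) = 0
      ring
    · intro x hx
      have e0 : pd 0 u1 x = deriv ψ (x 0) * Real.cos (x 1) := by
        show pd 0 (fun x : V 4 => ψ (x 0) * Real.cos (x 1)) x = _
        rw [prod_pd0 ψ Real.cos hψs hcos]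
      rw [e0]
      have hd : deriv ψ (x 0) = 0 := by
        rcases (abs_eq (by norm_num : (0 : ℝ) ≤ 1)).mp hx with h | h
        · rw [h]; exact hψp
        · rw [h]; exact hψm
      rw [hd]
      ring
  have hi1 : Inv i1 u1 := by
    intro x _
    show ψ (x 0) * Real.cos (-x 1) = ψ (x 0) * Real.cos (x 1)
    rw [Real.cos_neg]
  let v1 : strip 3 → ℝ := fun x => u1 x
  have hv1 : v1 ∈ F lam 0 i1 := Submodule.subset_span ⟨u1, ⟨hu1, hi1⟩, fun _ => rfl⟩
  have hv1' : v1 ∉ F lam 0 i2 := by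
    intro h
    obtain ⟨w, _, fw, _, _⟩ := hQ v1 h
    have h00 : (0 : ℝ) ∈ Set.Icc (-1 : ℝ) 1 := by constructor <;> norm_num
    have a1 := fw ⟨![0, 0, 0, 0], strip_iff 0 0 0 0 h00⟩
    have a2 := fw ⟨![0, Real.pi, 0, 0], strip_iff 0 Real.pi 0 0 h00⟩
    have b1 : ψ 0 * Real.cos 0 = w 0 := a1
    have b2 : ψ 0 * Real.cos Real.pi = w 0 := a2
    rw [Real.cos_zero] at b1
    rw [Real.cos_pi] at b2
    have := hψpos 0 h00
    linarith
  intro hrank
  have hfd1 : FiniteDimensional ℝ (F lam 0 i1) := by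
    show Module.Finite ℝ _
    rw [← Module.rank_lt_aleph0_iff, hrank]
    exact Module.rank_lt_aleph0_iff.mpr hfd
  have heq : F lam 0 i2 = F lam 0 i1 := by
    apply Submodule.eq_of_le_of_finrank_eq hle
    unfold Module.finrank
    rw [hrank]
  exact hv1' (heq ▸ hv1)

end Pool.Agent.W8.STC.W827NR.NR
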