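import Pool.Agent.W8.ST.Stm

/- copy of Pool/Agent/W397/ST/Ode.lean, written by helper397 -/

/-!
Project ST (owner helper8): the subtask ST-Ode, a linear equation with parameter.
-/

open scoped ContDiff Interval
open MeasureTheory intervalIntegral Set

namespace Pool.Agent.W8.STC.W397Ode

noncomputable section

variable {E : Type*} [NormedAddCommGroup E] [NormedSpace ℝ E] [CompleteSpace E]

/-- Picard iterates -/
def P (A : ℝ → ℝ → E →L[ℝ] E) (x0 : E) : ℕ → ℝ → ℝ → E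
  | 0 => fun _ _ => x0
  | n + 1 => fun l t => ∫ s in (-1 : ℝ)..t, A l s (P A x0 n l s)

theorem P_cont (A : ℝ → ℝ → E →L[ℝ] E) (x0 : E) (hA : Continuous fun p : ℝ × ℝ => A p.1 p.2)
    (n : ℕ) : Continuous fun p : ℝ × ℝ => P A x0 n p.1 p.2 := by
  induction n with
  | zero => exact continuous_const
  | succ n ih =>
    have h1 : Continuous (fun p : ℝ × ℝ => A p.1 p.2 (P A x0 n p.1 p.2)) := hA.clm_apply ih
    have h2 : Continuous (Function.uncurry
        (fun (p : ℝ × ℝ) (s : ℝ) => A p.1 s (P A x0 n p.1 s))) := by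
      have h3 : Continuous (fun z : (ℝ × ℝ) × ℝ => ((z.1.1, z.2) : ℝ × ℝ)) := by fun_prop
      exact h1.comp h3
    exact intervalIntegral.continuous_parametric_intervalIntegral_of_continuous h2 continuous_snd

theorem P_cont1 (A : ℝ → ℝ → E →L[ℝ] E) (x0 : E) (hA : Continuous fun p : ℝ × ℝ => A p.1 p.2)
    (n : ℕ) (l : ℝ) : Continuous (fun s => A l s (P A x0 n l s)) := by
  have h1 : Continuous (fun p : ℝ × ℝ => A p.1 p.2 (P A x0 n p.1 p.2)) :=
    hA.clm_apply (P_cont A x0 hA n)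
  exact h1.comp (by fun_prop : Continuous fun s : ℝ => ((l, s) : ℝ × ℝ))

theorem P_deriv (A : ℝ → ℝ → E →L[ℝ] E) (x0 : E) (hA : Continuous fun p : ℝ × ℝ => A p.1 p.2)
    (n : ℕ) (l t : ℝ) : HasDerivAt (P A x0 (n + 1) l) (A l t (P A x0 n l t)) t :=
  intervalIntegral.integral_hasDerivAt_right
    ((P_cont1 A x0 hA n l).intervalIntegrable _ _)
    ((P_cont1 A x0 hA n l).stronglyMeasurableAtFilter _ _)
    (P_cont1 A x0 hA n l).continuousAt

theorem P_bound (A : ℝ → ℝ → E →L[ℝ] E) (x0 : E) (hA : Continuous fun p : ℝ × ℝ => A p.1 p.2)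
    (l R C : ℝ) (hC : 0 ≤ C) (hb : ∀ s, |s + 1| ≤ R → ‖A l s‖ ≤ C) (n : ℕ) :
    ∀ t, |t + 1| ≤ R → ‖P A x0 n l t‖ ≤ (C * |t + 1|) ^ n / n.factorial * ‖x0‖ := by
  induction n with
  | zero => intro t _; simp [P]
  | succ n ih =>
    intro t ht
    have hsub : ∀ s ∈ Ι (-1 : ℝ) t, |s + 1| ≤ |t + 1| := by
      intro s hs
      rcases le_total (-1 : ℝ) t with h | h
      · rw [uIoc_of_le h] at hs
        rw [abs_of_nonneg (by linarith [hs.1]), abs_of_nonneg (by linarith)]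
        linarith [hs.2]
      · rw [uIoc_of_ge h] at hs
        rw [abs_of_nonpos (by linarith [hs.2]), abs_of_nonpos (by linarith)]
        linarith [hs.1]
    have h1 : ‖P A x0 (n + 1) l t‖ ≤ ∫ s in Ι (-1 : ℝ) t, ‖A l s (P A x0 n l s)‖ :=
      intervalIntegral.norm_integral_le_integral_norm_uIoc
    have h2 : ∫ s in Ι (-1 : ℝ) t, ‖A l s (P A x0 n l s)‖ ≤
        ∫ s in Ι (-1 : ℝ) t, (C ^ (n + 1) / n.factorial * ‖x0‖) * |s - (-1)| ^ n := by
      refine setIntegral_mono_on ?_ ?_ measurableSet_uIoc ?_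
      · have := ((P_cont1 A x0 hA n l).norm.intervalIntegrable (μ := volume) (-1) t)
        exact (intervalIntegrable_iff.1 this)
      · have : Continuous (fun s : ℝ => (C ^ (n + 1) / n.factorial * ‖x0‖) * |s - (-1)| ^ n) := by
          fun_prop
        exact (intervalIntegrable_iff.1 (this.intervalIntegrable (μ := volume) (-1) t))
      · intro s hs
        have hs1 := hsub s hs
        have hs2 : |s + 1| ≤ R := hs1.trans ht
        calc ‖A l s (P A x0 n l s)‖ ≤ ‖A l s‖ * ‖P A x0 n l s‖ := (A l s).le_opNorm _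
          _ ≤ C * ((C * |s + 1|) ^ n / n.factorial * ‖x0‖) := by
              gcongr
              · exact hb s hs2
              · exact ih s hs2
          _ = (C ^ (n + 1) / n.factorial * ‖x0‖) * |s - (-1)| ^ n := by
              rw [mul_pow, sub_neg_eq_add, pow_succ]; ring
    refine (h1.trans h2).trans (le_of_eq ?_)
    rw [MeasureTheory.integral_const_mul, integral_pow_abs_sub_uIoc, sub_neg_eq_add,
      Nat.factorial_succ, mul_pow]
    push_cast
    have hn : ((n : ℝ) + 1) ≠ 0 := by positivity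
    have hn2 : (n.factorial : ℝ) ≠ 0 := by positivity
    field_simp

theorem summ (C R : ℝ) (x : ℝ) : Summable (fun n : ℕ => (C * R) ^ n / n.factorial * x) :=
  (Real.summable_pow_div_factorial _).mul_right _

/-- local bounds -/
theorem loc_bound (A : ℝ → ℝ → E →L[ℝ] E) (hA : Continuous fun p : ℝ × ℝ => A p.1 p.2) (R : ℝ) :
    ∃ C, 0 ≤ C ∧ ∀ l s, |l| ≤ R → |s + 1| ≤ R → ‖A l s‖ ≤ C := by
  have hK : IsCompact (Icc (-R) R ×ˢ Icc (-1 - R) (-1 + R) : Set (ℝ × ℝ)) :=
    isCompact_Icc.prod isCompact_Icc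
  obtain ⟨C, hC⟩ := hK.exists_bound_of_continuousOn hA.continuousOn
  refine ⟨max C 0, le_max_right _ _, fun l s hl hs => ?_⟩
  refine (hC (l, s) ⟨?_, ?_⟩).trans (le_max_left _ _)
  · exact ⟨(abs_le.1 hl).1, (abs_le.1 hl).2⟩
  · exact ⟨by linarith [(abs_le.1 hs).1], by linarith [(abs_le.1 hs).2]⟩

theorem P_loc (A : ℝ → ℝ → E →L[ℝ] E) (x0 : E) (hA : Continuous fun p : ℝ × ℝ => A p.1 p.2)
    (R : ℝ) : ∃ u : ℕ → ℝ, Summable u ∧ ∃ C, 0 ≤ C ∧ Summable (fun n => C * u n) ∧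
      (∀ n l s, |l| ≤ R → |s + 1| ≤ R → ‖P A x0 n l s‖ ≤ u n) ∧
      (∀ n l s, |l| ≤ R → |s + 1| ≤ R → ‖A l s (P A x0 n l s)‖ ≤ C * u n) := by
  obtain ⟨C, hC0, hC⟩ := loc_bound A hA R
  have hb : ∀ n l s, |l| ≤ R → |s + 1| ≤ R →
      ‖P A x0 n l s‖ ≤ (C * R) ^ n / n.factorial * ‖x0‖ := by
    intro n l s hl hs
    have hR : 0 ≤ R := (abs_nonneg _).trans hl
    refine (P_bound A x0 hA l R C hC0 (fun s hs => hC l s hl hs) n s hs).trans ?_
    gcongr
  refine ⟨fun n => (C * R) ^ n / n.factorial * ‖x0‖, summ C R _, C, hC0,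
    (summ C R _).mul_left C, hb, ?_⟩
  intro n l s hl hs
  exact ((A l s).le_opNorm _).trans (mul_le_mul (hC l s hl hs) (hb n l s hl hs)
    (norm_nonneg _) hC0)

/-- the solution -/
def X (A : ℝ → ℝ → E →L[ℝ] E) (x0 : E) (l t : ℝ) : E := ∑' n, P A x0 n l t

theorem X_cont (A : ℝ → ℝ → E →L[ℝ] E) (x0 : E) (hA : Continuous fun p : ℝ × ℝ => A p.1 p.2) :
    Continuous fun p : ℝ × ℝ => X A x0 p.1 p.2 := by
  rw [continuous_iff_continuousAt]
  rintro ⟨l, t⟩
  set R : ℝ := max (|l| + 1) (|t + 1| + 1) with hR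
  obtain ⟨u, hu, C, hC0, hCu, hb, hb'⟩ := P_loc A x0 hA R
  have h1 : ContinuousOn (fun p : ℝ × ℝ => X A x0 p.1 p.2) {p | |p.1| ≤ R ∧ |p.2 + 1| ≤ R} := by
    refine continuousOn_tsum (fun n => (P_cont A x0 hA n).continuousOn) hu ?_
    rintro n ⟨l', t'⟩ hp
    exact hb n l' t' hp.1 hp.2
  refine h1.continuousAt ?_
  have ho : IsOpen {p : ℝ × ℝ | |p.1| < R ∧ |p.2 + 1| < R} := by
    have o1 : IsOpen {p : ℝ × ℝ | |p.1| < R} := isOpen_lt (by fun_prop) continuous_const
    have o2 : IsOpen {p : ℝ × ℝ | |p.2 + 1| < R} := isOpen_lt (by fun_prop) continuous_const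
    exact o1.inter o2
  refine Filter.mem_of_superset (ho.mem_nhds ⟨?_, ?_⟩) ?_
  · exact lt_of_lt_of_le (lt_add_one _) (le_max_left _ _)
  · exact lt_of_lt_of_le (lt_add_one _) (le_max_right _ _)
  · rintro p ⟨h1, h2⟩
    exact ⟨h1.le, h2.le⟩

theorem X_deriv (A : ℝ → ℝ → E →L[ℝ] E) (x0 : E) (hA : Continuous fun p : ℝ × ℝ => A p.1 p.2)
    (l t : ℝ) : HasDerivAt (X A x0 l) (A l t (X A x0 l t)) t := by
  set R : ℝ := max (|l| + 1) (|t + 1| + 1) with hR
  obtain ⟨u, hu, C, hC0, hCu, hb, hb'⟩ := P_loc A x0 hA R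
  have hl : |l| ≤ R := (lt_add_one _).le.trans (le_max_left _ _)
  have ht : |t + 1| < R := lt_of_lt_of_le (lt_add_one _) (le_max_right _ _)
  have hs : ∀ s, |s + 1| ≤ R → Summable (fun n => P A x0 n l s) := fun s hs =>
    Summable.of_norm_bounded hu (fun n => hb n l s hl hs)
  have hopen : IsOpen {s : ℝ | |s + 1| < R} := isOpen_lt (by fun_prop) continuous_const
  have hpre : IsPreconnected {s : ℝ | |s + 1| < R} := by
    have : {s : ℝ | |s + 1| < R} = Ioo (-1 - R) (-1 + R) := by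
      ext s
      simp only [mem_ofPred_eq, mem_Ioo, abs_lt]
      constructor
      · rintro ⟨h1, h2⟩; constructor <;> linarith
      · rintro ⟨h1, h2⟩; constructor <;> linarith
    rw [this]
    exact isPreconnected_Ioo
  have key : HasDerivAt (fun s => ∑' n, P A x0 (n + 1) l s)
      (∑' n, A l t (P A x0 n l t)) t := by
    refine hasDerivAt_tsum_of_isPreconnected hCu hopen hpre
      (fun n y _ => P_deriv A x0 hA n l y) (fun n y hy => hb' n l y hl (le_of_lt hy)) ht ?_ ht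
    exact (summable_nat_add_iff 1).2 (hs t ht.le)
  have h0 : (∑' n, A l t (P A x0 n l t)) = A l t (X A x0 l t) := by
    rw [X, (A l t).map_tsum (hs t ht.le)]
  rw [h0] at key
  have h2 : (X A x0 l) =ᶠ[nhds t] fun s => x0 + ∑' n, P A x0 (n + 1) l s := by
    filter_upwards [hopen.mem_nhds ht] with s hs'
    have := (hs s (le_of_lt hs')).tsum_eq_zero_add
    simpa [X, P] using this
  refine HasDerivAt.congr_of_eventuallyEq ?_ h2
  exact key.const_add x0

theorem X_init (A : ℝ → ℝ → E →L[ℝ] E) (x0 : E) (l : ℝ) : X A x0 l (-1) = x0 := by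
  rw [X, tsum_eq_single 0]
  · rfl
  · intro n hn
    obtain ⟨m, rfl⟩ := Nat.exists_eq_succ_of_ne_zero hn
    simp [P]

theorem X_smooth (A : ℝ → ℝ → E →L[ℝ] E) (x0 : E) (hA : Continuous fun p : ℝ × ℝ => A p.1 p.2)
    (l : ℝ) (hl : ContDiff ℝ ∞ (A l)) : ContDiff ℝ ∞ (X A x0 l) := by
  rw [contDiff_infty]
  intro n
  induction n with
  | zero =>
    have : Differentiable ℝ (X A x0 l) := fun t => (X_deriv A x0 hA l t).differentiableAt
    exact contDiff_zero.2 this.continuous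
  | succ n ih =>
    have hd : deriv (X A x0 l) = fun t => A l t (X A x0 l t) := by
      funext t
      exact (X_deriv A x0 hA l t).deriv
    have h := (contDiff_succ_iff_deriv (𝕜 := ℝ) (n := (n : WithTop ℕ∞)) (f := X A x0 l)).2
      ⟨fun t => (X_deriv A x0 hA l t).differentiableAt, by simp, by
        rw [hd]
        exact (hl.of_le (by exact_mod_cast le_top)).clm_apply ih⟩
    exact_mod_cast h

open Pool.Agent.W8.ST

/-- the matrix of the equation `w'' = a w` -/
def AA (a : ℝ → ℝ → ℝ) (l t : ℝ) : (ℝ × ℝ) →L[ℝ] (ℝ × ℝ) :=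
  (ContinuousLinearMap.snd ℝ ℝ ℝ).prod 0 +
    a l t • (0 : (ℝ × ℝ) →L[ℝ] ℝ).prod (ContinuousLinearMap.fst ℝ ℝ ℝ)

theorem AA_apply (a : ℝ → ℝ → ℝ) (l t : ℝ) (v : ℝ × ℝ) :
    AA a l t v = (v.2, a l t * v.1) := by
  simp [AA]

theorem q_smooth : ContDiff ℝ ∞ q := by
  unfold q
  fun_prop

theorem q_pos (t : ℝ) : 0 < q t := Real.exp_pos _

theorem Ode_proof : Ode := by
  set a : ℝ → ℝ → ℝ := fun l t => ((q t)⁻¹) ^ 2 - l * q t with ha
  have hqi : ContDiff ℝ ∞ (fun t => (q t)⁻¹) := q_smooth.inv (fun t => (q_pos t).ne')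
  have hqc : Continuous q := q_smooth.continuous
  have hqic : Continuous (fun t => (q t)⁻¹) := hqi.continuous
  have hac : Continuous (fun p : ℝ × ℝ => a p.1 p.2) := by
    simp only [ha]
    exact ((hqic.comp continuous_snd).pow 2).sub (continuous_fst.mul (hqc.comp continuous_snd))
  have has : ∀ l, ContDiff ℝ ∞ (a l) := by
    intro l
    simp only [ha]
    exact (hqi.pow 2).sub (contDiff_const.mul q_smooth)
  have hA : Continuous fun p : ℝ × ℝ => AA a p.1 p.2 := by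
    unfold AA
    exact continuous_const.add (hac.smul continuous_const)
  have hAs : ∀ l, ContDiff ℝ ∞ (AA a l) := by
    intro l
    have : AA a l = fun t => (ContinuousLinearMap.snd ℝ ℝ ℝ).prod 0 +
      a l t • (0 : (ℝ × ℝ) →L[ℝ] ℝ).prod (ContinuousLinearMap.fst ℝ ℝ ℝ) := rfl
    rw [this]
    exact contDiff_const.add ((has l).smul contDiff_const)
  set x : ℝ → ℝ → ℝ × ℝ := X (AA a) (1, 0) with hx
  have hxd : ∀ l t, HasDerivAt (x l) ((x l t).2, a l t * (x l t).1) t := by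
    intro l t
    have := X_deriv (AA a) (1, 0) hA l t
    rwa [AA_apply] at this
  have hxs : ∀ l, ContDiff ℝ ∞ (x l) := fun l => X_smooth (AA a) (1, 0) hA l (hAs l)
  have hxc : Continuous fun p : ℝ × ℝ => x p.1 p.2 := X_cont (AA a) (1, 0) hA
  have h1 : ∀ l t, HasDerivAt (fun s => (x l s).1) (x l t).2 t := fun l t => (hxd l t).fst
  have h2 : ∀ l t, HasDerivAt (fun s => (x l s).2) (a l t * (x l t).1) t := fun l t => (hxd l t).snd
  have hd1 : ∀ l, deriv (fun s => (x l s).1) = fun t => (x l t).2 := fun l => by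
    funext t; exact (h1 l t).deriv
  have hd2 : ∀ l, deriv (fun s => (x l s).2) = fun t => a l t * (x l t).1 := fun l => by
    funext t; exact (h2 l t).deriv
  have hi : ∀ l, x l (-1) = (1, 0) := fun l => X_init (AA a) (1, 0) l
  refine ⟨fun l t => (x l t).1, fun l => (hxs l).fst, fun l => by simp [hi l], fun l => ?_,
    fun l t => ?_, hxc.fst, ?_⟩
  · show deriv (fun s => (x l s).1) (-1) = 0
    rw [hd1]; simp [hi l]
  · show deriv (deriv (fun s => (x l s).1)) t = _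
    rw [hd1, hd2]
  · show Continuous (fun p : ℝ × ℝ => deriv (fun s => (x p.1 s).1) p.2)
    have : (fun p : ℝ × ℝ => deriv (fun s => (x p.1 s).1) p.2) = fun p => (x p.1 p.2).2 := by
      funext p; rw [hd1]
    rw [this]
    exact hxc.snd

end

end Pool.Agent.W8.STC.W397Ode
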