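import Pool.Agent.W8.ST.Stm

/- copy of Pool/Agent/W997/ST/OpI.lean, written by helper997 -/

set_option autoImplicit false

open scoped ContDiff

namespace Pool.Agent.W8.STC.W997OpI

open Pool.Agent.W8.ST

noncomputable section

/-- a diagonal affine map -/
def af (e c : V 4) (x : V 4) : V 4 := fun i => e i * x i + c i

theorem af_deriv (e c x : V 4) :
    HasFDerivAt (af e c)
      (ContinuousLinearMap.pi fun i => e i • (ContinuousLinearMap.proj i : V 4 →L[ℝ] ℝ)) x := by
  rw [hasFDerivAt_pi]
  intro i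
  have h : HasFDerivAt (fun y : V 4 => y i) (ContinuousLinearMap.proj i : V 4 →L[ℝ] ℝ) x :=
    (ContinuousLinearMap.proj i : V 4 →L[ℝ] ℝ).hasFDerivAt
  exact (h.const_mul (e i)).add_const (c i)

theorem pd_af (e c : V 4) (u : V 4 → ℝ) (hu : Differentiable ℝ u) (j : Fin 4) (x : V 4) :
    pd j (u ∘ af e c) x = e j * pd j u (af e c x) := by
  unfold pd
  rw [((hu (af e c x)).hasFDerivAt.comp x (af_deriv e c x)).fderiv]
  rw [ContinuousLinearMap.comp_apply]
  have h : (ContinuousLinearMap.pi fun i => e i • (ContinuousLinearMap.proj i : V 4 →L[ℝ] ℝ))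
      (Pi.single j 1) = e j • (Pi.single j 1 : V 4) := by
    ext i
    by_cases hij : i = j
    · subst hij
      simp
    · simp [Pi.single_eq_of_ne hij]
  rw [h, map_smul, smul_eq_mul]

theorem pd_mul (c : ℝ) (u : V 4 → ℝ) (hu : Differentiable ℝ u) (j : Fin 4) (x : V 4) :
    pd j (fun y => c * u y) x = c * pd j u x := by
  unfold pd
  rw [((hu x).hasFDerivAt.const_mul c).fderiv]
  simp

theorem pd_smooth {u : V 4 → ℝ} (hu : ContDiff ℝ ∞ u) (j : Fin 4) : ContDiff ℝ ∞ (pd j u) := by
  have h : ContDiff ℝ ∞ (fderiv ℝ u) := hu.fderiv_right (by simp)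
  exact h.clm_apply contDiff_const

theorem pd2_af (e c : V 4) (u : V 4 → ℝ) (hu : ContDiff ℝ ∞ u) (j : Fin 4) (hj : e j * e j = 1)
    (x : V 4) : pd j (pd j (u ∘ af e c)) x = pd j (pd j u) (af e c x) := by
  have hd : Differentiable ℝ u := hu.differentiable (by simp)
  have hd' : Differentiable ℝ (pd j u) := (pd_smooth hu j).differentiable (by simp)
  have haf : Differentiable ℝ (af e c) := fun y => (af_deriv e c y).differentiableAt
  have h1 : pd j (u ∘ af e c) = fun y => e j * (pd j u ∘ af e c) y := by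
    funext y
    exact pd_af e c u hd j y
  rw [h1, pd_mul (e j) _ (hd'.comp haf) j x, pd_af e c _ hd' j x, ← mul_assoc, hj, one_mul]

theorem af_smooth (e c : V 4) : ContDiff ℝ ∞ (af e c) := by
  rw [contDiff_pi]
  intro i
  exact (contDiff_const.mul (contDiff_apply ℝ ℝ i)).add contDiff_const

theorem af_strip {e c : V 4} (h0 : e 0 = 1) (hc : c 0 = 0) (x : V 4) : af e c x 0 = x 0 := by
  simp [af, h0, hc]

theorem sol_af {e c : V 4} (h0 : e 0 = 1) (hc : c 0 = 0) (he : ∀ i, e i = 1 ∨ e i = -1)
    (lam sig : ℝ) (u : V 4 → ℝ) (hu : Sol lam sig u) : Sol lam sig (u ∘ af e c) := by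
  obtain ⟨hs, hp, hl, hb⟩ := hu
  have hd : Differentiable ℝ u := hs.differentiable (by simp)
  have hmul : ∀ i, e i * e i = 1 := by
    intro i
    rcases he i with h | h <;> rw [h] <;> norm_num
  refine ⟨hs.comp (af_smooth e c), ?_, ?_, ?_⟩
  · intro x hx i
    have hx' : |x 0| ≤ 1 := hx
    have h1 : af e c (x + Pi.single i.succ (2 * Real.pi)) =
        af e c x + Pi.single i.succ (e i.succ * (2 * Real.pi)) := by
      funext j
      by_cases hij : j = i.succ
      · subst hij
        simp only [af, Pi.add_apply, Pi.single_eq_same]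
        ring
      · simp only [af, Pi.add_apply, Pi.single_eq_of_ne hij]
        ring
    show u (af e c (x + Pi.single i.succ (2 * Real.pi))) = u (af e c x)
    rw [h1]
    rcases he i.succ with h | h
    · rw [h, one_mul]
      refine hp _ ?_ i
      show |af e c x 0| ≤ 1
      rw [af_strip h0 hc]
      exact hx'
    · rw [h]
      have hy : (af e c x + Pi.single i.succ (-1 * (2 * Real.pi)) : V 4) ∈ strip 3 := by
        show |(af e c x + Pi.single i.succ (-1 * (2 * Real.pi)) : V 4) 0| ≤ 1
        rw [Pi.add_apply, Pi.single_eq_of_ne (Fin.succ_ne_zero i).symm, add_zero,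
          af_strip h0 hc]
        exact hx'
      have h2 := hp _ hy i
      rw [add_assoc, ← Pi.single_add] at h2
      have h3 : (-1 * (2 * Real.pi) + 2 * Real.pi : ℝ) = 0 := by ring
      rw [h3, Pi.single_zero, add_zero] at h2
      exact h2.symm
  · intro x hx
    have hx' : |x 0| ≤ 1 := hx
    rw [pd2_af e c u hs 0 (hmul 0), pd2_af e c u hs 1 (hmul 1), pd2_af e c u hs 2 (hmul 2),
      pd2_af e c u hs 3 (hmul 3)]
    have h1 := hl (af e c x) (by
      show |af e c x 0| ≤ 1
      rw [af_strip h0 hc]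
      exact hx')
    rw [af_strip h0 hc] at h1
    exact h1
  · intro x hx
    rw [pd_af e c u hd 0 x, h0, one_mul]
    have h1 := hb (af e c x) (by rw [af_strip h0 hc]; exact hx)
    rw [af_strip h0 hc] at h1
    exact h1

theorem i1_eq : i1 = af ![1, -1, 1, -1] ![0, 0, Real.pi, 0] := by
  funext x i
  fin_cases i <;> simp [i1, af]

theorem i2_eq : i2 = af ![1, 1, -1, -1] ![0, Real.pi, 0, 0] := by
  funext x i
  fin_cases i <;> simp [i2, af]

theorem OpI_proof : OpI := by
  refine ⟨?_, ?_⟩
  · intro lam sig u hu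
    refine ⟨?_, ?_⟩
    · rw [i1_eq]
      refine sol_af (by simp) (by simp) ?_ lam sig u hu
      intro i
      fin_cases i <;> simp
    · rw [i2_eq]
      refine sol_af (by simp) (by simp) ?_ lam sig u hu
      intro i
      fin_cases i <;> simp
  · intro u hu
    have hd : Differentiable ℝ u := hu.differentiable (by simp)
    rw [i1_eq, i2_eq]
    refine ⟨?_, ?_, ?_, ?_, ?_, ?_⟩ <;> funext x <;>
      simp only [Pi.neg_apply, Function.comp_apply, pd_af _ _ u hd _ x] <;>
      simp

end

end Pool.Agent.W8.STC.W997OpI
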