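import Pool.Agent.W8.ST.Stm

/- copy of Pool/Agent/W889/ST/Tri.lean, written by helper889 -/

/-!
Project ST, part Tri: a trial function.
-/

open MeasureTheory intervalIntegral

namespace Pool.Agent.W8.STC.W889Tri

open Pool.Agent.W8.ST

theorem tri_hd (t : ℝ) : HasDerivAt (fun t : ℝ => (max t 0) ^ 2) (2 * max t 0) t := by
  rcases lt_trichotomy t 0 with h | h | h
  · have h1 : (fun t : ℝ => (max t 0) ^ 2) =ᶠ[nhds t] fun _ => (0 : ℝ) := by
      filter_upwards [gt_mem_nhds h] with s hs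
      rw [max_eq_right hs.le]; norm_num
    rw [max_eq_right h.le]
    simpa using (hasDerivAt_const t (0 : ℝ)).congr_of_eventuallyEq h1
  · subst h
    rw [max_self, mul_zero, hasDerivAt_iff_isLittleO_nhds_zero]
    have h2 : (fun h : ℝ => h ^ 2) =o[nhds 0] fun h : ℝ => h :=
      Asymptotics.isLittleO_pow_id (by norm_num)
    refine Asymptotics.IsBigO.trans_isLittleO ?_ h2
    refine Asymptotics.IsBigO.of_bound 1 (Filter.Eventually.of_forall fun h => ?_)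
    rw [zero_add, max_self, smul_zero, sub_zero, one_mul, Real.norm_eq_abs, Real.norm_eq_abs]
    rcases le_total h 0 with h3 | h3
    · rw [max_eq_right h3]; simpa using sq_nonneg h
    · rw [max_eq_left h3]; simp
  · have h1 : (fun t : ℝ => (max t 0) ^ 2) =ᶠ[nhds t] fun s => s ^ 2 := by
      filter_upwards [lt_mem_nhds h] with s hs
      rw [max_eq_left hs.le]
    rw [max_eq_left h.le]
    have h2 := (hasDerivAt_pow 2 t).congr_of_eventuallyEq h1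
    simpa using h2

theorem tri_deriv : deriv (fun t : ℝ => (max t 0) ^ 2) = fun t => 2 * max t 0 :=
  funext fun t => (tri_hd t).deriv

theorem tri_cd : ContDiff ℝ 1 (fun t : ℝ => (max t 0) ^ 2) := by
  rw [contDiff_one_iff_deriv]
  refine ⟨fun t => (tri_hd t).differentiableAt, ?_⟩
  rw [tri_deriv]
  fun_prop

theorem tri_q_cont : Continuous q := by
  unfold q
  fun_prop

theorem tri_q_pos (t : ℝ) : 0 < q t := Real.exp_pos _

theorem tri_q_ge (t : ℝ) (h0 : 0 ≤ t) (h1 : t ≤ 1) :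
    1 + 20 * t * (1 - t ^ 2) + (20 * t * (1 - t ^ 2)) ^ 2 / 2 ≤ q t := by
  unfold q
  have h2 : 0 ≤ 20 * t * (1 - t ^ 2) := by
    apply mul_nonneg (by linarith)
    nlinarith
  exact Real.quadratic_le_exp_of_nonneg h2

theorem tri_q_inv (t : ℝ) (h0 : 0 ≤ t) (h1 : t ≤ 1) : ((q t)⁻¹) ^ 2 ≤ 1 := by
  have h2 : 1 ≤ q t := by
    have h3 := tri_q_ge t h0 h1
    have h4 : 0 ≤ 20 * t * (1 - t ^ 2) := by
      apply mul_nonneg (by linarith)
      nlinarith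
    nlinarith [sq_nonneg (20 * t * (1 - t ^ 2))]
  have h5 : (q t)⁻¹ ≤ 1 := inv_le_one_of_one_le₀ h2
  have h6 : 0 ≤ (q t)⁻¹ := (inv_pos.2 (tri_q_pos t)).le
  nlinarith

theorem Tri_proof : Tri := by
  refine ⟨fun t => (max t 0) ^ 2, tri_cd, ?_⟩
  rw [tri_deriv]
  have hc : Continuous (fun t : ℝ => ((2 * max t 0) ^ 2 +
      (((q t)⁻¹) ^ 2 - 1 / 2 * q t) * ((max t 0) ^ 2) ^ 2)) := by
    have h1 := tri_q_cont
    have h2 : Continuous (fun t => (q t)⁻¹) := h1.inv₀ (fun t => (tri_q_pos t).ne')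
    fun_prop
  have hs := (integral_add_adjacent_intervals (hc.intervalIntegrable (μ := volume) (-1) 0)
    (hc.intervalIntegrable (μ := volume) 0 1)).symm
  have h1 : ∫ t in (-1 : ℝ)..0, ((2 * max t 0) ^ 2 +
      (((q t)⁻¹) ^ 2 - 1 / 2 * q t) * ((max t 0) ^ 2) ^ 2) = 0 := by
    have h2 : ∫ t in (-1 : ℝ)..0, ((2 * max t 0) ^ 2 +
      (((q t)⁻¹) ^ 2 - 1 / 2 * q t) * ((max t 0) ^ 2) ^ 2) = ∫ t in (-1 : ℝ)..0, (0 : ℝ) := by
      apply integral_congr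
      intro t ht
      rw [Set.uIcc_of_le (by norm_num)] at ht
      simp only [max_eq_right ht.2]
      norm_num
    rw [h2]; simp
  have h3 : ∫ t in (0 : ℝ)..1, ((2 * max t 0) ^ 2 +
      (((q t)⁻¹) ^ 2 - 1 / 2 * q t) * ((max t 0) ^ 2) ^ 2) ≤
      ∫ t in (0 : ℝ)..1, (4 * t ^ 2 + (1 / 2) * t ^ 4 - 10 * t ^ 5 + 10 * t ^ 7 - 100 * t ^ 6
        + 200 * t ^ 8 - 100 * t ^ 10) := by
    apply integral_mono_on (by norm_num) (hc.intervalIntegrable _ _)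
    · apply Continuous.intervalIntegrable
      fun_prop
    · intro t ht
      have h4 := tri_q_ge t ht.1 ht.2
      have h5 := tri_q_inv t ht.1 ht.2
      rw [max_eq_left ht.1]
      have h6 : 0 ≤ (t ^ 2) ^ 2 := by positivity
      have h7 : (((q t)⁻¹) ^ 2 - 1 / 2 * q t) * (t ^ 2) ^ 2 ≤
          (1 - 1 / 2 * (1 + 20 * t * (1 - t ^ 2) + (20 * t * (1 - t ^ 2)) ^ 2 / 2)) *
            (t ^ 2) ^ 2 := by
        apply mul_le_mul_of_nonneg_right _ h6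
        linarith
      have h8 : (2 * t) ^ 2 + (1 - 1 / 2 * (1 + 20 * t * (1 - t ^ 2) +
          (20 * t * (1 - t ^ 2)) ^ 2 / 2)) * (t ^ 2) ^ 2 =
          4 * t ^ 2 + (1 / 2) * t ^ 4 - 10 * t ^ 5 + 10 * t ^ 7 - 100 * t ^ 6
        + 200 * t ^ 8 - 100 * t ^ 10 := by ring
      linarith
  have h9 : ∫ t in (0 : ℝ)..1, (4 * t ^ 2 + (1 / 2) * t ^ 4 - 10 * t ^ 5 + 10 * t ^ 7 -
      100 * t ^ 6 + 200 * t ^ 8 - 100 * t ^ 10) =
      4 / 3 + 1 / 10 - 10 / 6 + 10 / 8 - 100 / 7 + 200 / 9 - 100 / 11 := by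
    have hF : ∀ t ∈ Set.uIcc (0 : ℝ) 1, HasDerivAt (fun t : ℝ => 4 / 3 * t ^ 3 + 1 / 10 * t ^ 5
        - 10 / 6 * t ^ 6 + 10 / 8 * t ^ 8 - 100 / 7 * t ^ 7 + 200 / 9 * t ^ 9
        - 100 / 11 * t ^ 11) (4 * t ^ 2 + (1 / 2) * t ^ 4 - 10 * t ^ 5 + 10 * t ^ 7 -
      100 * t ^ 6 + 200 * t ^ 8 - 100 * t ^ 10) t := by
      intro t _
      have e3 := (hasDerivAt_pow 3 t).const_mul (4 / 3 : ℝ)
      have e5 := (hasDerivAt_pow 5 t).const_mul (1 / 10 : ℝ)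
      have e6 := (hasDerivAt_pow 6 t).const_mul (10 / 6 : ℝ)
      have e8 := (hasDerivAt_pow 8 t).const_mul (10 / 8 : ℝ)
      have e7 := (hasDerivAt_pow 7 t).const_mul (100 / 7 : ℝ)
      have e9 := (hasDerivAt_pow 9 t).const_mul (200 / 9 : ℝ)
      have e11 := (hasDerivAt_pow 11 t).const_mul (100 / 11 : ℝ)
      have e := (((((e3.add e5).sub e6).add e8).sub e7).add e9).sub e11
      refine HasDerivAt.congr_deriv (f := fun t : ℝ => 4 / 3 * t ^ 3 + 1 / 10 * t ^ 5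
        - 10 / 6 * t ^ 6 + 10 / 8 * t ^ 8 - 100 / 7 * t ^ 7 + 200 / 9 * t ^ 9
        - 100 / 11 * t ^ 11) e ?_
      norm_num
      ring
    rw [integral_eq_sub_of_hasDerivAt hF]
    · norm_num
    · apply Continuous.intervalIntegrable
      fun_prop
  have h10 : (4 / 3 + 1 / 10 - 10 / 6 + 10 / 8 - 100 / 7 + 200 / 9 - 100 / 11 : ℝ) < 0 := by
    norm_num
  calc _ = (∫ t in (-1 : ℝ)..0, ((2 * max t 0) ^ 2 +
      (((q t)⁻¹) ^ 2 - 1 / 2 * q t) * ((max t 0) ^ 2) ^ 2)) + ∫ t in (0 : ℝ)..1,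
      ((2 * max t 0) ^ 2 + (((q t)⁻¹) ^ 2 - 1 / 2 * q t) * ((max t 0) ^ 2) ^ 2) := hs
    _ < 0 := by rw [h1]; linarith

end Pool.Agent.W8.STC.W889Tri
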