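import Pool.Agent.W8.ST.Stm

/- copy of Pool/Agent/W32/ST/Uni.lean, written by helper32 -/

/-!
# ST-Uni: uniqueness for the linear equation
-/

set_option autoImplicit false

namespace Pool.Agent.W8.STC.W32Uni

open Pool.Agent.W8.ST Set

theorem Uni_proof : Uni := by
  intro f w s hf hw hs hode hws hws' t ht
  have h2 : ContDiff ℝ (1 + 1) w := by
    rw [one_add_one_eq_two]; exact hw
  have h3 := contDiff_succ_iff_deriv.1 h2
  have hd1 : Differentiable ℝ w := h3.1
  have hd2 : Differentiable ℝ (deriv w) := h3.2.2.differentiable (by norm_num)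
  obtain ⟨M, hM⟩ := isCompact_Icc.exists_bound_of_continuousOn (s := Icc (-1 : ℝ) 1) hf.continuousOn
  have he : ∀ x, HasDerivAt (fun x => w x ^ 2 + deriv w x ^ 2)
      (2 * w x * deriv w x + 2 * deriv w x * deriv (deriv w) x) x := by
    intro x
    have a := ((hd1 x).hasDerivAt.mul (hd1 x).hasDerivAt).add
      ((hd2 x).hasDerivAt.mul (hd2 x).hasDerivAt)
    have b : (fun x => w x ^ 2 + deriv w x ^ 2) = (w * w + deriv w * deriv w) := by
      funext y
      simp only [Pi.add_apply, Pi.mul_apply]
      ring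
    rw [b]
    exact a.congr_deriv (by ring)
  have hb : ∀ x ∈ Icc (-1 : ℝ) 1, |2 * w x * deriv w x + 2 * deriv w x * deriv (deriv w) x| ≤
      (1 + M) * (w x ^ 2 + deriv w x ^ 2) := by
    intro x hx
    rw [hode x hx]
    have h1 : |f x| ≤ M := by simpa using hM x hx
    have h5 : 2 * w x * deriv w x + 2 * deriv w x * (f x * w x) =
      (1 + f x) * (2 * (w x * deriv w x)) := by ring
    rw [h5, abs_mul]
    have h6 : |1 + f x| ≤ 1 + M := (abs_add_le _ _).trans (by rw [abs_one]; linarith)
    have h7 : |2 * (w x * deriv w x)| ≤ w x ^ 2 + deriv w x ^ 2 := by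
      rw [abs_le]
      constructor <;> nlinarith [sq_nonneg (w x + deriv w x), sq_nonneg (w x - deriv w x)]
    exact mul_le_mul h6 h7 (abs_nonneg _) ((abs_nonneg _).trans h6)
  have hexp : ∀ c x : ℝ, HasDerivAt (fun x => Real.exp (c * x)) (Real.exp (c * x) * c) x := by
    intro c x
    have := ((hasDerivAt_id x).const_mul c).exp
    simpa using this
  have hg : ∀ c x : ℝ, HasDerivAt (fun x => (w x ^ 2 + deriv w x ^ 2) * Real.exp (c * x))
      ((2 * w x * deriv w x + 2 * deriv w x * deriv (deriv w) x) * Real.exp (c * x) +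
        (w x ^ 2 + deriv w x ^ 2) * (Real.exp (c * x) * c)) x := fun c x =>
    (he x).mul (hexp c x)
  have hgd : ∀ c : ℝ, Differentiable ℝ (fun x => (w x ^ 2 + deriv w x ^ 2) * Real.exp (c * x)) :=
    fun c x => (hg c x).differentiableAt
  have hint : ∀ x ∈ interior (Icc (-1 : ℝ) 1), x ∈ Icc (-1 : ℝ) 1 := fun x hx => interior_subset hx
  have hanti : AntitoneOn (fun x => (w x ^ 2 + deriv w x ^ 2) * Real.exp (-(1 + M) * x))
      (Icc (-1 : ℝ) 1) := by
    apply antitoneOn_of_deriv_nonpos (convex_Icc _ _) (hgd _).continuous.continuousOn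
      (hgd _).differentiableOn
    intro x hx
    rw [(hg _ x).deriv]
    have h1 := (abs_le.1 (hb x (hint x hx))).2
    have h4 := Real.exp_pos (-(1 + M) * x)
    nlinarith
  have hmono : MonotoneOn (fun x => (w x ^ 2 + deriv w x ^ 2) * Real.exp ((1 + M) * x))
      (Icc (-1 : ℝ) 1) := by
    apply monotoneOn_of_deriv_nonneg (convex_Icc _ _) (hgd _).continuous.continuousOn
      (hgd _).differentiableOn
    intro x hx
    rw [(hg _ x).deriv]
    have h1 := (abs_le.1 (hb x (hint x hx))).1
    have h4 := Real.exp_pos ((1 + M) * x)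
    nlinarith
  have key : w t ^ 2 + deriv w t ^ 2 ≤ 0 := by
    rcases le_total s t with h | h
    · have h1 := hanti hs ht h
      simp only [hws, hws'] at h1
      have h4 := Real.exp_pos (-(1 + M) * t)
      by_contra hc
      push Not at hc
      have := mul_pos hc h4
      nlinarith
    · have h1 := hmono ht hs h
      simp only [hws, hws'] at h1
      have h4 := Real.exp_pos ((1 + M) * t)
      by_contra hc
      push Not at hc
      have := mul_pos hc h4
      nlinarith
  have h0 : w t ^ 2 = 0 := le_antisymm (by nlinarith [sq_nonneg (deriv w t)]) (sq_nonneg _)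
  exact (pow_eq_zero_iff two_ne_zero).1 h0

end Pool.Agent.W8.STC.W32Uni
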